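import Pool.Agent.Helper63.GB2.Tot

/-!
# MP_02f2ca_gt, dimension two : the adversary and the lower levels
-/

open Set MeasureTheory Filter Topology

namespace GB

/-- all rotations: the adversary's and two trivial ones -/
noncomputable def rhoS {m : ℕ} (ρ₀ : Fin m → ℂ) : Fin m ⊕ Fin 2 → ℂ := Sum.elim ρ₀ (fun _ => 1)

/-- all translation parts -/
noncomputable def trS {m : ℕ} (α : ℝ) (a₀ : Fin m → ℂ) : Fin m ⊕ Fin 2 → ℂ :=
  Sum.elim a₀ (fun u => ((u : ℕ) : ℂ) - (α : ℂ))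

lemma rhoS_norm {m : ℕ} {ρ₀ : Fin m → ℂ} (h : ∀ j, ‖ρ₀ j‖ = 1) : ∀ i, ‖rhoS ρ₀ i‖ = 1 := by
  rintro (j | u)
  · exact h j
  · simp [rhoS]

lemma indicator_move {E : Set ℂ} (ρ a z : ℂ) :
    E.indicator (fun _ => (1 : ℝ)) (ρ⁻¹ * (z - a)) =
      {z | ρ⁻¹ * (z - a) ∈ E}.indicator (fun _ => (1 : ℝ)) z := by
  by_cases h : ρ⁻¹ * (z - a) ∈ E
  · rw [indicator_of_mem h, indicator_of_mem (by exact h)]
  · rw [indicator_of_notMem h, indicator_of_notMem (by exact h)]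

lemma bounded_move {E : Set ℂ} (hE : Bornology.IsBounded E) {ρ : ℂ} (hρ : ‖ρ‖ = 1) (a : ℂ) :
    Bornology.IsBounded {z | ρ⁻¹ * (z - a) ∈ E} := by
  obtain ⟨R, hR⟩ := hE.exists_norm_le
  rw [isBounded_iff_forall_norm_le]
  refine ⟨R + ‖a‖, fun z hz => ?_⟩
  have h1 := hR _ hz
  rw [norm_mul, norm_inv, hρ, inv_one, one_mul] at h1
  have := norm_add_le (z - a) a
  rw [sub_add_cancel] at this
  linarith

lemma vol_cthick_mono {E : Set ℂ} (hE : Bornology.IsBounded E) {r r' : ℝ} (h : r ≤ r') :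
    (volume (Metric.cthickening r E)).toReal ≤ (volume (Metric.cthickening r' E)).toReal := by
  refine ENNReal.toReal_mono ?_ (measure_mono (Metric.cthickening_mono h E))
  exact (hE.cthickening.measure_lt_top).ne

theorem adv_estimate {m : ℕ} (D : Fin m → Set ℂ) (ρ₀ a₀ : Fin m → ℂ) (hρ₀ : ∀ j, ‖ρ₀ j‖ = 1)
    (hD : ∀ j, Bornology.IsBounded (D j) ∧ volume (frontier (D j)) = 0)
    (α : ℝ) (d : Derivation ℚ ℝ ℝ) (hd : d α = 1) (c : ℝ) (hc : 0 < c) :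
    ∃ n₁ : ℕ, ∀ P : ℕ, n₁ ≤ P → ∃ B₀ : ℕ, ∀ B : ℕ, B₀ ≤ B → ∀ x₀ : ℂ, ‖x₀‖ ≤ 1 →
      |Tot (P ^ 3) α (P ^ 7) B (rhoS ρ₀) (trS α a₀) d P x₀ (fun z => ∑ j,
        ((D j).indicator (fun _ => (1 : ℝ)) z
          - (D j).indicator (fun _ => (1 : ℝ)) ((ρ₀ j)⁻¹ * (z - a₀ j))))| ≤
        c * Fintype.card (Lamp (Fin m ⊕ Fin 2) (P ^ 3)) * P * ((P ^ 7 : ℕ) : ℝ) ^ 4 := by
  classical
  set ρ := rhoS ρ₀ with hρdef
  set a := trS α a₀ with hadef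
  have hρ : ∀ i, ‖ρ i‖ = 1 := rhoS_norm hρ₀
  set ε : ℝ := c / (2 * (m + 1)) with hε
  have hε0 : 0 < ε := by positivity
  -- fine estimates
  have hf := fun j => mesh_fine α (D j) (hD j).1 (hD j).2 (ρ₀ j) (cder d (a₀ j)) (hρ₀ j)
    (kap d (ρ₀ j)) ε hε0
  choose n hn using hf
  set k₀ : ℝ := ∑ i, |kap d (ρ i)| with hk₀
  have hk : ∀ i, |kap d (ρ i)| ≤ k₀ := fun i =>
    Finset.single_le_sum (f := fun i => |kap d (ρ i)|) (fun _ _ => abs_nonneg _)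
      (Finset.mem_univ i)
  have hk00 : 0 ≤ k₀ := Finset.sum_nonneg fun _ _ => abs_nonneg _
  set V₀ : ℝ := ∑ j, ((volume (Metric.cthickening 2 (D j))).toReal +
    (volume (Metric.cthickening 2 {z | (ρ₀ j)⁻¹ * (z - a₀ j) ∈ D j})).toReal) with hV₀
  have hV₀j : ∀ j, (volume (Metric.cthickening 2 (D j))).toReal +
    (volume (Metric.cthickening 2 {z | (ρ₀ j)⁻¹ * (z - a₀ j) ∈ D j})).toReal ≤ V₀ := fun j =>
    Finset.single_le_sum (f := fun j => (volume (Metric.cthickening 2 (D j))).toReal +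
    (volume (Metric.cthickening 2 {z | (ρ₀ j)⁻¹ * (z - a₀ j) ∈ D j})).toReal)
      (fun _ _ => by positivity) (Finset.mem_univ j)
  have hV₀0 : 0 ≤ V₀ := Finset.sum_nonneg fun _ _ => by positivity
  set N : ℕ := ∑ j, n j with hN
  have hnN : ∀ j, n j ≤ N := fun j => Finset.single_le_sum (fun _ _ => Nat.zero_le _)
    (Finset.mem_univ j)
  set cι : ℕ := Fintype.card (Fin m ⊕ Fin 2) with hcι
  obtain ⟨n₂, hn₂⟩ := exists_nat_ge ((N + 1) * (cι : ℝ) * k₀ + 68 * V₀ / ε)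
  refine ⟨n₂ + N + 2, fun P hP => ?_⟩
  have hP2 : 2 ≤ P := by omega
  have hP0 : (0 : ℝ) < P := by exact_mod_cast (by omega : 0 < P)
  have hP1 : (1 : ℝ) ≤ P := by exact_mod_cast (by omega : 1 ≤ P)
  have hPn : (N + 1) * (cι : ℝ) * k₀ + 68 * V₀ / ε ≤ P := hn₂.trans (by exact_mod_cast (by omega))
  have hA1 : (N + 1) * (cι : ℝ) * k₀ ≤ P := by
    have : 0 ≤ 68 * V₀ / ε := by positivity
    linarith
  have hA2 : 68 * V₀ / ε ≤ P := by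
    have : 0 ≤ (N + 1) * (cι : ℝ) * k₀ := by positivity
    linarith
  have hM2 : 2 ≤ P ^ 3 := by
    calc 2 ≤ P := hP2
      _ ≤ P ^ 3 := Nat.le_self_pow (by norm_num) P
  have hL1 : 1 ≤ P ^ 7 := Nat.one_le_pow _ _ (by omega)
  have hPL : P ≤ P ^ 7 := Nat.le_self_pow (by norm_num) P
  -- bounds for kap
  have hkap : ∀ x : Lamp (Fin m ⊕ Fin 2) (P ^ 3),
      (N + 1 : ℝ) * |kap d (lq ρ x.1)| ≤ ((P ^ 7 : ℕ) : ℝ) := by
    intro x
    have h1 := kap_lq d ρ hρ x.1 k₀ hk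
    have h2 : (N + 1 : ℝ) * |kap d (lq ρ x.1)| ≤ (N + 1) * (cι * ((P ^ 3 : ℕ) : ℝ) * k₀) := by
      gcongr
    refine h2.trans ?_
    have h3 : (N + 1 : ℝ) * (cι * ((P ^ 3 : ℕ) : ℝ) * k₀) =
        ((N + 1) * (cι : ℝ) * k₀) * (P : ℝ) ^ 3 := by
      push_cast
      ring
    rw [h3]
    push_cast
    calc ((N + 1) * (cι : ℝ) * k₀) * (P : ℝ) ^ 3 ≤ P * (P : ℝ) ^ 3 := by gcongr
      _ = (P : ℝ) ^ 4 := by ring
      _ ≤ (P : ℝ) ^ 7 := pow_le_pow_right₀ hP1 (by norm_num)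
  have hkap1 : ∀ x : Lamp (Fin m ⊕ Fin 2) (P ^ 3), |kap d (lq ρ x.1)| ≤ ((P ^ 7 : ℕ) : ℝ) := by
    intro x
    refine le_trans ?_ (hkap x)
    have : (0 : ℝ) ≤ N := Nat.cast_nonneg N
    nlinarith [abs_nonneg (kap d (lq ρ x.1))]
  have hnorm : ∀ x : Lamp (Fin m ⊕ Fin 2) (P ^ 3), ‖lq ρ x.1‖ = 1 := fun x => norm_lq ρ hρ x.1
  -- the threshold for B
  have hB : ∀ j : Fin m, ∀ x : Lamp (Fin m ⊕ Fin 2) (P ^ 3), ∃ B₀ : ℕ, ∀ B : ℕ, B₀ ≤ B →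
      ∀ x₀ : ℂ, ‖x₀‖ ≤ 1 → |∑ s ∈ boxZ B, ∑ v ∈ boxZ B,
      (bump P (cder d (loc α (P ^ 7) ρ a x s v)) -
        bump P (cder d (ρ₀ j * loc α (P ^ 7) ρ a x s v + a₀ j))) *
        (D j).indicator (fun _ => (1 : ℝ)) (loc α (P ^ 7) ρ a x s v + lq ρ x.1 * x₀)| ≤
          ε * P * ((P ^ 7 : ℕ) : ℝ) ^ 4 := by
    intro j x
    have hnj : (n j : ℝ) * |kap d (lq ρ x.1)| ≤ ((P ^ 7 : ℕ) : ℝ) := by
      refine le_trans ?_ (hkap x)
      have h1 : (n j : ℝ) ≤ N + 1 := by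
        have : (n j : ℝ) ≤ N := by exact_mod_cast hnN j
        linarith
      gcongr
    obtain ⟨B₀, hB₀⟩ := hn j P (P ^ 7) (by have := hnN j; omega)
      (by have := hnN j; omega) (kap d (lq ρ x.1)) hnj (lq ρ x.1) (lh ρ a x.2)
      (cder d (lh ρ a x.2)) (hnorm x)
    refine ⟨B₀, fun B hB x₀ hx₀ => ?_⟩
    have := hB₀ B hB x₀ hx₀
    simp only [loc, cder_move _ _ _ _ (hρ₀ j), cder_mb d α hd _ hL1 _ _ (hnorm x)]
    exact this
  choose Bf hBf using hB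
  refine ⟨∑ j, ∑ x, Bf j x, fun B hBB x₀ hx₀ => ?_⟩
  have hBjx : ∀ j x, Bf j x ≤ B := by
    intro j x
    refine le_trans ?_ hBB
    refine le_trans (Finset.single_le_sum (f := fun x => Bf j x) (fun _ _ => Nat.zero_le _)
      (Finset.mem_univ x)) ?_
    exact Finset.single_le_sum (f := fun j => ∑ x, Bf j x) (fun _ _ => Nat.zero_le _)
      (Finset.mem_univ j)
  rw [Tot_sum]
  have hj : ∀ j, |Tot (P ^ 3) α (P ^ 7) B ρ a d P x₀ (fun z =>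
      ((D j).indicator (fun _ => (1 : ℝ)) z
          - (D j).indicator (fun _ => (1 : ℝ)) ((ρ₀ j)⁻¹ * (z - a₀ j))))| ≤
      Fintype.card (Lamp (Fin m ⊕ Fin 2) (P ^ 3)) * (ε * P * ((P ^ 7 : ℕ) : ℝ) ^ 4 +
        2 * (34 * (P : ℝ) ^ 2 * ((P ^ 7 : ℕ) : ℝ) ^ 4 * V₀) / ((P ^ 3 : ℕ) : ℝ)) := by
    intro j
    have hL2 : 2 / ((P ^ 7 : ℕ) : ℝ) ≤ 2 := by
      rw [div_le_iff₀ (by positivity)]
      have : (1 : ℝ) ≤ ((P ^ 7 : ℕ) : ℝ) := by exact_mod_cast hL1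
      linarith
    refine Tot_move (P ^ 3) α (P ^ 7) B ρ a d P x₀ hM2 hρ (Sum.inl j) (D j) _ _
      (by positivity) ?_ ?_ ?_
    · intro x
      exact hBf j x B (hBjx j x) x₀ hx₀
    · intro x
      simp only [loc]
      simp only [cder_mb d α hd _ hL1 _ _ (hnorm x)]
      refine (mesh_bump_le α (P ^ 7) P hL1 (by omega) _ (hkap1 x) _ _ _ _ (hnorm x) _
        (hD j).1 B).trans ?_
      gcongr
      refine (vol_cthick_mono (hD j).1 hL2).trans ?_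
      refine le_trans ?_ (hV₀j j)
      have : 0 ≤ (volume (Metric.cthickening 2 {z | (ρ₀ j)⁻¹ * (z - a₀ j) ∈ D j})).toReal :=
        ENNReal.toReal_nonneg
      linarith
    · intro x
      simp only [loc, indicator_move]
      simp only [cder_mb d α hd _ hL1 _ _ (hnorm x)]
      have hbd := bounded_move (hD j).1 (hρ₀ j) (a₀ j)
      refine (mesh_bump_le α (P ^ 7) P hL1 (by omega) _ (hkap1 x) _ _ _ _ (hnorm x)
        {z | (ρ₀ j)⁻¹ * (z - a₀ j) ∈ D j} hbd B).trans ?_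
      gcongr
      refine (vol_cthick_mono hbd hL2).trans ?_
      refine le_trans ?_ (hV₀j j)
      have : 0 ≤ (volume (Metric.cthickening 2 (D j))).toReal := ENNReal.toReal_nonneg
      linarith
  have hLpos : (0 : ℝ) < ((P ^ 7 : ℕ) : ℝ) ^ 4 := by positivity
  have hbound : ε * P * ((P ^ 7 : ℕ) : ℝ) ^ 4 +
        2 * (34 * (P : ℝ) ^ 2 * ((P ^ 7 : ℕ) : ℝ) ^ 4 * V₀) / ((P ^ 3 : ℕ) : ℝ) ≤
        2 * ε * P * ((P ^ 7 : ℕ) : ℝ) ^ 4 := by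
    have h1 : 2 * (34 * (P : ℝ) ^ 2 * ((P ^ 7 : ℕ) : ℝ) ^ 4 * V₀) / ((P ^ 3 : ℕ) : ℝ) =
        (68 * V₀ / P) * ((P ^ 7 : ℕ) : ℝ) ^ 4 := by
      push_cast
      field_simp
      ring
    rw [h1]
    have h2 : 68 * V₀ / P ≤ ε * P := by
      rw [div_le_iff₀ hP0]
      rw [div_le_iff₀ hε0] at hA2
      nlinarith [mul_pos hε0 hP0]
    nlinarith
  calc |∑ j, Tot (P ^ 3) α (P ^ 7) B ρ a d P x₀ (fun z =>
      ((D j).indicator (fun _ => (1 : ℝ)) z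
          - (D j).indicator (fun _ => (1 : ℝ)) ((ρ₀ j)⁻¹ * (z - a₀ j))))|
      ≤ ∑ j : Fin m, Fintype.card (Lamp (Fin m ⊕ Fin 2) (P ^ 3)) *
        (2 * ε * P * ((P ^ 7 : ℕ) : ℝ) ^ 4) := by
        refine (Finset.abs_sum_le_sum_abs _ _).trans (Finset.sum_le_sum fun j _ => ?_)
        refine (hj j).trans ?_
        gcongr
    _ = m * (Fintype.card (Lamp (Fin m ⊕ Fin 2) (P ^ 3)) *
        (2 * ε * P * ((P ^ 7 : ℕ) : ℝ) ^ 4)) := by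
        rw [Finset.sum_const, Finset.card_univ, Fintype.card_fin, nsmul_eq_mul]
    _ = (m * (2 * ε)) * (Fintype.card (Lamp (Fin m ⊕ Fin 2) (P ^ 3)) *
        (P * ((P ^ 7 : ℕ) : ℝ) ^ 4)) := by ring
    _ ≤ c * (Fintype.card (Lamp (Fin m ⊕ Fin 2) (P ^ 3)) *
        (P * ((P ^ 7 : ℕ) : ℝ) ^ 4)) := by
        gcongr
        rw [hε]
        have : (m : ℝ) * (2 * (c / (2 * (m + 1)))) = c * (m / (m + 1)) := by
          field_simp
        rw [this]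
        have h3 : (m : ℝ) / (m + 1) ≤ 1 := by
          rw [div_le_one (by positivity)]
          linarith
        nlinarith
    _ = _ := by ring

end GB
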