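import Pool.Agent.Helper63.GB2.Mods

/-!
# MP_02f2ca_gt, dimension two : elementary estimates for the assembly
-/

open Set MeasureTheory Filter Topology

namespace GB

lemma bump_nonneg (R : ℝ) (D : ℂ) : 0 ≤ bump R D := le_max_left _ _

lemma bump_le_one {R : ℝ} (hR : 0 < R) (D : ℂ) : bump R D ≤ 1 := by
  unfold bump
  have : 0 ≤ ‖D‖ / R := by positivity
  exact max_le (by norm_num) (by linarith)

lemma bump_zero {R : ℝ} (hR : 0 < R) {D : ℂ} (h : R ≤ ‖D‖) : bump R D = 0 := by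
  unfold bump
  have : 1 ≤ ‖D‖ / R := by rwa [le_div_iff₀ hR, one_mul]
  exact max_eq_left (by linarith)

lemma bump_lip {R : ℝ} (hR : 0 < R) (D D' : ℂ) : |bump R D - bump R D'| ≤ ‖D - D'‖ / R := by
  unfold bump
  have h1 : |max 0 (1 - ‖D‖ / R) - max 0 (1 - ‖D'‖ / R)| ≤ |(1 - ‖D‖ / R) - (1 - ‖D'‖ / R)| := by
    have := abs_max_sub_max_le_abs (1 - ‖D‖ / R) (1 - ‖D'‖ / R) 0
    rwa [max_comm 0, max_comm 0]
  refine h1.trans ?_
  have h2 : (1 - ‖D‖ / R) - (1 - ‖D'‖ / R) = (‖D'‖ - ‖D‖) / R := by ring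
  rw [h2, abs_div, abs_of_pos hR, abs_sub_comm]
  gcongr
  exact abs_norm_sub_norm_le D D'

/-- sums over the mesh as sums over pairs -/
lemma mesh_bump_le (α : ℝ) (L R : ℕ) (hL : 1 ≤ L) (hR : 1 ≤ R) (κ : ℝ) (hκ : |κ| ≤ L)
    (q h η x₀ : ℂ) (hq : ‖q‖ = 1) (E : Set ℂ) (hE : Bornology.IsBounded E) (B : ℕ) :
    ∑ s ∈ boxZ B, ∑ v ∈ boxZ B, bump R (md α L q h η κ s v) *
      E.indicator (fun _ => (1 : ℝ)) (mb α L q h s v + q * x₀) ≤
      34 * (R : ℝ) ^ 2 * (L : ℝ) ^ 4 * (volume (Metric.cthickening (2 / (L : ℝ)) E)).toReal := by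
  classical
  refine le_trans ?_ (mesh_crude α L R hL hR κ hκ q h η x₀ hq E hE B)
  rw [← Finset.sum_product', Finset.card_filter]
  push_cast
  apply Finset.sum_le_sum
  rintro ⟨s, v⟩ _
  have hR0 : (0 : ℝ) < R := by exact_mod_cast hR
  by_cases h1 : mb α L q h s v + q * x₀ ∈ E
  · by_cases h2 : ‖md α L q h η κ s v‖ ≤ R
    · simp only [h1, h2, and_self, if_true, indicator_of_mem, mul_one]
      exact bump_le_one hR0 _
    · rw [bump_zero hR0 (not_le.mp h2).le, zero_mul]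
      split_ifs <;> norm_num
  · rw [indicator_of_notMem h1, mul_zero]
    split_ifs <;> norm_num

lemma mesh_diff_le (α : ℝ) (L R : ℕ) (hL : 1 ≤ L) (hR : 1 ≤ R) (κ : ℝ) (hκ : |κ| ≤ L)
    (q h η x₀ : ℂ) (hq : ‖q‖ = 1) (E : Set ℂ) (hE : Bornology.IsBounded E) (B : ℕ) :
    |∑ s ∈ boxZ B, ∑ v ∈ boxZ B, (bump R (md α L q h η κ s v) -
        bump R (md α L q h η κ s v - 1)) *
      E.indicator (fun _ => (1 : ℝ)) (mb α L q h s v + q * x₀)| ≤
      136 * (R : ℝ) * (L : ℝ) ^ 4 * (volume (Metric.cthickening (2 / (L : ℝ)) E)).toReal := by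
  classical
  have hR0 : (0 : ℝ) < R := by exact_mod_cast hR
  have hR1 : (1 : ℝ) ≤ R := by exact_mod_cast hR
  have hc := mesh_crude α L (R + 1) hL (by omega) κ hκ q h η x₀ hq E hE B
  have hV : 0 ≤ (volume (Metric.cthickening (2 / (L : ℝ)) E)).toReal := ENNReal.toReal_nonneg
  have hle : |∑ s ∈ boxZ B, ∑ v ∈ boxZ B, (bump R (md α L q h η κ s v) -
        bump R (md α L q h η κ s v - 1)) *
      E.indicator (fun _ => (1 : ℝ)) (mb α L q h s v + q * x₀)| ≤
      (1 / R) * ((((boxZ B) ×ˢ (boxZ B)).filter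
        (fun p => ‖md α L q h η κ p.1 p.2‖ ≤ ((R + 1 : ℕ) : ℝ) ∧
          mb α L q h p.1 p.2 + q * x₀ ∈ E)).card : ℝ) := by
    rw [← Finset.sum_product', Finset.card_filter]
    refine (Finset.abs_sum_le_sum_abs _ _).trans ?_
    push_cast
    rw [Finset.mul_sum]
    apply Finset.sum_le_sum
    rintro ⟨s, v⟩ _
    simp only
    by_cases h1 : mb α L q h s v + q * x₀ ∈ E
    · by_cases h2 : ‖md α L q h η κ s v‖ ≤ R + 1
      · simp only [h1, h2, and_self, if_true, indicator_of_mem, mul_one]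
        refine (bump_lip hR0 _ _).trans ?_
        rw [sub_sub_cancel, norm_one]
      · push Not at h2
        rw [bump_zero hR0 (by linarith), bump_zero hR0 (D := md α L q h η κ s v - 1)]
        · simp only [sub_zero, zero_mul, abs_zero]
          split_ifs <;> positivity
        · have := norm_sub_norm_le (md α L q h η κ s v) 1
          rw [norm_one] at this
          linarith
    · rw [indicator_of_notMem h1, mul_zero, abs_zero]
      split_ifs <;> positivity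
  refine hle.trans ?_
  calc (1 / (R : ℝ)) * _ ≤ (1 / (R : ℝ)) * (34 * ((R + 1 : ℕ) : ℝ) ^ 2 * (L : ℝ) ^ 4 *
        (volume (Metric.cthickening (2 / (L : ℝ)) E)).toReal) := by gcongr
    _ ≤ (1 / (R : ℝ)) * (34 * (4 * (R : ℝ) ^ 2) * (L : ℝ) ^ 4 *
        (volume (Metric.cthickening (2 / (L : ℝ)) E)).toReal) := by
        gcongr
        push_cast
        nlinarith
    _ = _ := by field_simp; ring

end GB
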