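import Pool.Agent.Helper70.GB.Types

/-!
# MP_02f2ca_gt, dimension two : definitions for the obstruction
-/

open Set MeasureTheory Filter Topology

namespace GB

/-- Gaussian integers as complex numbers. -/
noncomputable def gi (v : ℤ × ℤ) : ℂ := ⟨(v.1 : ℝ), (v.2 : ℝ)⟩

/-- Square boxes in `ℤ²`. -/
noncomputable def boxZ (B : ℕ) : Finset (ℤ × ℤ) := Finset.Icc (-(B : ℤ)) B ×ˢ Finset.Icc (-(B : ℤ)) B

/-- `v·α` reduced modulo Gaussian integers (componentwise rounding). -/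
noncomputable def fr2 (α : ℝ) (v : ℤ × ℤ) : ℂ :=
  ⟨(v.1 : ℝ) * α - (round ((v.1 : ℝ) * α) : ℤ), (v.2 : ℝ) * α - (round ((v.2 : ℝ) * α) : ℤ)⟩

/-- The radial Lipschitz bump of radius `R`. -/
noncomputable def bump (R : ℝ) (D : ℂ) : ℝ := max 0 (1 - ‖D‖ / R)

/-- Mesh points: location. -/
noncomputable def mb (α : ℝ) (L : ℕ) (q h : ℂ) (s v : ℤ × ℤ) : ℂ :=
  q * (h + (gi s + fr2 α v) / (L : ℂ))

/-- Mesh points: derivative. -/
noncomputable def md (α : ℝ) (L : ℕ) (q h η : ℂ) (κ : ℝ) (s v : ℤ × ℤ) : ℂ :=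
  Complex.I * (κ : ℂ) * mb α L q h s v + q * (η + gi v / (L : ℂ))

/-- The small box in which the main level is detected. -/
def smallbox (w : ℝ) : Set ℂ :=
  {z | z.re ∈ Icc (2 + 23 / 4 * w) (2 + 25 / 4 * w) ∧ z.im ∈ Icc (1 / 4 : ℝ) (3 / 4)}

/-- The open square carrying the second part of the two bodies. -/
def sq2 : Set ℂ := {z | z.re ∈ Ioo (2 : ℝ) 3 ∧ z.im ∈ Ioo (0 : ℝ) 1}

/-- Planar bodies over one-dimensional ones. -/
def cyl (A : Set ℝ) : Set ℂ := {z | z.re ∈ A ∧ z.im ∈ Ioo (0 : ℝ) 1}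

/-- Planar version of the level functions. -/
noncomputable def Fl (a₁ : ℝ) (G : Set ℝ) (z : ℂ) : ℝ :=
  sq2.indicator (fun z => (cob a₁ G z.re : ℝ)) z

/-- The two pieces of a lower level. -/
def Qp (a₁ : ℝ) (G : Set ℝ) (u : Fin 2) : Set ℂ :=
  if u = 0 then {z | z ∈ sq2 ∧ z.re ∈ G ∧ 2 + a₁ < z.re}
  else {z | z ∈ sq2 ∧ z.re ∈ G ∧ z.re < 2 + a₁}

/-- Index set of the configuration (`M`-periodic lamplighter). -/
abbrev Lamp (ι : Type) (M : ℕ) : Type := (ι → Fin M) × ((ι × (ι → Fin M)) → Fin M)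

/-- rotation part -/
noncomputable def lq {ι : Type} [Fintype ι] {M : ℕ} (ρ : ι → ℂ) (J : ι → Fin M) : ℂ :=
  ∏ i, ρ i ^ (J i : ℕ)

/-- translation part -/
noncomputable def lh {ι : Type} [Fintype ι] [DecidableEq ι] {M : ℕ} (ρ a : ι → ℂ)
    (c : (ι × (ι → Fin M)) → Fin M) : ℂ :=
  ∑ k, ((c k : ℕ) : ℂ) * ((lq ρ k.2)⁻¹ * a k.1)

/-- The extension of a derivation of `ℝ` to `ℂ`. -/
noncomputable def cder (d : Derivation ℚ ℝ ℝ) (z : ℂ) : ℂ := ⟨d z.re, d z.im⟩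

/-- The logarithmic derivative divided by `I` (real for unit complex numbers). -/
noncomputable def kap (d : Derivation ℚ ℝ ℝ) (q : ℂ) : ℝ := (-Complex.I * cder d q / q).re

end GB
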