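import Pool.Agent.Helper63.GB2.Obstruction
import Pool.Agent.Helper70.GB.One

/-!
# MP_02f2ca_gt : the counterexample in dimension two
-/

open Set MeasureTheory Filter Topology

namespace GB

theorem main_plane : ∃ A B : Set (EuclideanSpace ℝ (Fin 2)), IsGeomBody A ∧ IsGeomBody B ∧
    EquidecArb A B ∧ ¬ EquidecGeom A B := by
  obtain ⟨a₁, a₂, h0, h1, hind⟩ := exists_algIndep
  have hα : QIndep a₁ a₂ := qindep_of_algIndep hind
  obtain ⟨X, ε, θ, h⟩ := exists_levels a₁ a₂ hα (thrP a₁) thr2P kapp eP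
    (fun n => by unfold eP; positivity) mu2 mu2_pos
  exact transfer_plane (cyl_geom (body_geom h).1) (cyl_geom (body_geom h).2)
    (cyl_arb (body_equidec hα h))
    (not_equidecGeom_plane' a₁ a₂ h0 h1 hind X ε θ h (cyl_geom (body_geom h).1)
      (cyl_geom (body_geom h).2))

end GB
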