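import Pool.Agent.Helper63.GB2.Adv

/-!
# MP_02f2ca_gt, dimension two : the lower levels
-/

open Set MeasureTheory Filter Topology

namespace GB

lemma cder_shift (d : Derivation ℚ ℝ ℝ) (α : ℝ) (hd : d α = 1) (u : Fin 2) :
    cder d (((u : ℕ) : ℂ) - (α : ℂ)) = -1 := by
  unfold cder
  apply Complex.ext
  · simp only [Complex.sub_re, Complex.natCast_re, Complex.ofReal_re, map_sub, hd,
      Derivation.map_natCast, zero_sub, Complex.neg_re, Complex.one_re]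
  · simp

lemma norm_le_of_sq2 {z : ℂ} (hz : z ∈ sq2) : ‖z‖ ≤ 4 := by
  obtain ⟨h1, h2⟩ := hz
  have h := Complex.norm_le_abs_re_add_abs_im z
  have h3 : |z.re| ≤ 3 := by rw [abs_le]; constructor <;> linarith [h1.1, h1.2]
  have h4 : |z.im| ≤ 1 := by rw [abs_le]; constructor <;> linarith [h2.1, h2.2]
  linarith

lemma Qp_subset (α : ℝ) (G : Set ℝ) (u : Fin 2) : Qp α G u ⊆ sq2 := by
  unfold Qp
  split_ifs
  · exact fun z hz => hz.1
  · exact fun z hz => hz.1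

lemma sq2_bounded : Bornology.IsBounded sq2 := by
  rw [isBounded_iff_forall_norm_le]
  exact ⟨4, fun z hz => norm_le_of_sq2 hz⟩

lemma Qp_bounded (α : ℝ) (G : Set ℝ) (u : Fin 2) : Bornology.IsBounded (Qp α G u) :=
  sq2_bounded.subset (Qp_subset α G u)

theorem lower_estimate {m : ℕ} (ρ₀ a₀ : Fin m → ℂ) (hρ₀ : ∀ j, ‖ρ₀ j‖ = 1)
    (α : ℝ) (hα0 : 0 < α) (hα1 : α < 1) (d : Derivation ℚ ℝ ℝ) (hd : d α = 1) (c : ℝ)
    (hc : 0 < c) :
    ∃ n₁ : ℕ, ∀ P : ℕ, n₁ ≤ P → ∀ (B : ℕ) (x₀ : ℂ), ∀ i : ℕ, i ≤ P → ∀ (G : ℕ → Set ℝ)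
      (vv : ℕ → ℝ), (∀ j < i, ∀ u, (volume (Metric.cthickening (2 / ((P ^ 7 : ℕ) : ℝ))
        (Qp α (G j) u))).toReal ≤ vv j) →
      |Tot (P ^ 3) α (P ^ 7) B (rhoS ρ₀) (trS α a₀) d P x₀ (fun z => ∑ j ∈ Finset.range i,
        ∑ u : Fin 2, ((Qp α (G j) u).indicator (fun _ => (1 : ℝ)) z
          - (Qp α (G j) u).indicator (fun _ => (1 : ℝ)) (z - ((u : ℕ) - α : ℂ))))| ≤
        (272 * (∑ j ∈ Finset.range i, vv j) + c) *
          Fintype.card (Lamp (Fin m ⊕ Fin 2) (P ^ 3)) * P * ((P ^ 7 : ℕ) : ℝ) ^ 4 := by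
  classical
  set ρ := rhoS ρ₀ with hρdef
  set a := trS α a₀ with hadef
  have hρ : ∀ i, ‖ρ i‖ = 1 := rhoS_norm hρ₀
  set k₀ : ℝ := ∑ i, |kap d (ρ i)| with hk₀
  have hk : ∀ i, |kap d (ρ i)| ≤ k₀ := fun i =>
    Finset.single_le_sum (f := fun i => |kap d (ρ i)|) (fun _ _ => abs_nonneg _)
      (Finset.mem_univ i)
  have hk00 : 0 ≤ k₀ := Finset.sum_nonneg fun _ _ => abs_nonneg _
  set V₀ : ℝ := (volume (Metric.cthickening 2 (Metric.closedBall (0 : ℂ) 6))).toReal with hV₀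
  have hV₀0 : 0 ≤ V₀ := ENNReal.toReal_nonneg
  set cι : ℕ := Fintype.card (Fin m ⊕ Fin 2) with hcι
  obtain ⟨n₂, hn₂⟩ := exists_nat_ge ((cι : ℝ) * k₀ + 136 * V₀ / c)
  refine ⟨n₂ + 2, fun P hP B x₀ i hi G vv hvv => ?_⟩
  have hP2 : 2 ≤ P := by omega
  have hP0 : (0 : ℝ) < P := by exact_mod_cast (by omega : 0 < P)
  have hP1 : (1 : ℝ) ≤ P := by exact_mod_cast (by omega : 1 ≤ P)
  have hPn : (cι : ℝ) * k₀ + 136 * V₀ / c ≤ P := hn₂.trans (by exact_mod_cast (by omega))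
  have hA1 : (cι : ℝ) * k₀ ≤ P := by
    have : 0 ≤ 136 * V₀ / c := by positivity
    linarith
  have hA2 : 136 * V₀ / c ≤ P := by
    have : 0 ≤ (cι : ℝ) * k₀ := by positivity
    linarith
  have hM2 : 2 ≤ P ^ 3 := by
    calc 2 ≤ P := hP2
      _ ≤ P ^ 3 := Nat.le_self_pow (by norm_num) P
  have hL1 : 1 ≤ P ^ 7 := Nat.one_le_pow _ _ (by omega)
  have hkap1 : ∀ x : Lamp (Fin m ⊕ Fin 2) (P ^ 3), |kap d (lq ρ x.1)| ≤ ((P ^ 7 : ℕ) : ℝ) := by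
    intro x
    have h1 := kap_lq d ρ hρ x.1 k₀ hk
    refine h1.trans ?_
    have h3 : (cι : ℝ) * ((P ^ 3 : ℕ) : ℝ) * k₀ = ((cι : ℝ) * k₀) * (P : ℝ) ^ 3 := by
      push_cast
      ring
    rw [h3]
    push_cast
    calc ((cι : ℝ) * k₀) * (P : ℝ) ^ 3 ≤ P * (P : ℝ) ^ 3 := by gcongr
      _ = (P : ℝ) ^ 4 := by ring
      _ ≤ (P : ℝ) ^ 7 := pow_le_pow_right₀ hP1 (by norm_num)
  have hnorm : ∀ x : Lamp (Fin m ⊕ Fin 2) (P ^ 3), ‖lq ρ x.1‖ = 1 := fun x => norm_lq ρ hρ x.1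
  have hL2 : 2 / ((P ^ 7 : ℕ) : ℝ) ≤ 2 := by
    rw [div_le_iff₀ (by positivity)]
    have : (1 : ℝ) ≤ ((P ^ 7 : ℕ) : ℝ) := by exact_mod_cast hL1
    linarith
  have hvol : ∀ E : Set ℂ, (∀ z ∈ E, ‖z‖ ≤ 6) →
      (volume (Metric.cthickening (2 / ((P ^ 7 : ℕ) : ℝ)) E)).toReal ≤ V₀ := by
    intro E hE
    refine ENNReal.toReal_mono ?_ (measure_mono ?_)
    · exact (Metric.isBounded_closedBall.cthickening.measure_lt_top).ne
    · refine (Metric.cthickening_mono hL2 E).trans (Metric.cthickening_subset_of_subset 2 ?_)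
      intro z hz
      rw [mem_closedBall_zero_iff]
      exact hE z hz
  rw [Tot_sum]
  have hju : ∀ j < i, ∀ u : Fin 2, |Tot (P ^ 3) α (P ^ 7) B ρ a d P x₀ (fun z =>
      ((Qp α (G j) u).indicator (fun _ => (1 : ℝ)) z
          - (Qp α (G j) u).indicator (fun _ => (1 : ℝ)) (z - ((u : ℕ) - α : ℂ))))| ≤
      Fintype.card (Lamp (Fin m ⊕ Fin 2) (P ^ 3)) * (136 * P * ((P ^ 7 : ℕ) : ℝ) ^ 4 * vv j +
        2 * (34 * (P : ℝ) ^ 2 * ((P ^ 7 : ℕ) : ℝ) ^ 4 * V₀) / ((P ^ 3 : ℕ) : ℝ)) := by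
    intro j hj u
    have hρu : ρ (Sum.inr u) = 1 := rfl
    have hau : a (Sum.inr u) = ((u : ℕ) : ℂ) - (α : ℂ) := rfl
    have hvv0 : 0 ≤ vv j := le_trans ENNReal.toReal_nonneg (hvv j hj u)
    have hmv := Tot_move (P ^ 3) α (P ^ 7) B ρ a d P x₀ hM2 hρ (Sum.inr u) (Qp α (G j) u)
      (136 * P * ((P ^ 7 : ℕ) : ℝ) ^ 4 * vv j)
      (34 * (P : ℝ) ^ 2 * ((P ^ 7 : ℕ) : ℝ) ^ 4 * V₀) (by positivity) ?_ ?_ ?_
    · simpa only [hρu, hau, inv_one, one_mul] using hmv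
    · intro x
      have : ∀ s v, cder d (ρ (Sum.inr u) * loc α (P ^ 7) ρ a x s v + a (Sum.inr u)) =
          md α (P ^ 7) (lq ρ x.1) (lh ρ a x.2) (cder d (lh ρ a x.2)) (kap d (lq ρ x.1)) s v
            - 1 := by
        intro s v
        rw [hρu, hau, one_mul, cder_add, cder_shift d α hd u]
        unfold loc
        rw [cder_mb d α hd _ hL1 _ _ (hnorm x)]
        ring
      simp only [this]
      simp only [loc, cder_mb d α hd _ hL1 _ _ (hnorm x)]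
      refine (mesh_diff_le α (P ^ 7) P hL1 (by omega) _ (hkap1 x) _ _ _ _ (hnorm x) _
        (Qp_bounded α (G j) u) B).trans ?_
      gcongr
      exact hvv j hj u
    · intro x
      simp only [loc]
      simp only [cder_mb d α hd _ hL1 _ _ (hnorm x)]
      refine (mesh_bump_le α (P ^ 7) P hL1 (by omega) _ (hkap1 x) _ _ _ _ (hnorm x) _
        (Qp_bounded α (G j) u) B).trans ?_
      gcongr
      refine hvol _ fun z hz => ?_
      have := norm_le_of_sq2 (Qp_subset α (G j) u hz)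
      linarith
    · intro x
      simp only [loc, indicator_move]
      simp only [cder_mb d α hd _ hL1 _ _ (hnorm x)]
      have hbd := bounded_move (Qp_bounded α (G j) u) (hρ (Sum.inr u)) (a (Sum.inr u))
      refine (mesh_bump_le α (P ^ 7) P hL1 (by omega) _ (hkap1 x) _ _ _ _ (hnorm x)
        {z | (ρ (Sum.inr u))⁻¹ * (z - a (Sum.inr u)) ∈ Qp α (G j) u} hbd B).trans ?_
      gcongr
      refine hvol _ fun z hz => ?_
      have hz' : z - (((u : ℕ) : ℂ) - (α : ℂ)) ∈ Qp α (G j) u := by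
        have : (ρ (Sum.inr u))⁻¹ * (z - a (Sum.inr u)) ∈ Qp α (G j) u := hz
        simpa only [hρu, hau, inv_one, one_mul] using this
      have h1 := norm_le_of_sq2 (Qp_subset α (G j) u hz')
      have h2 : ‖((u : ℕ) : ℂ) - (α : ℂ)‖ ≤ 1 := by
        have : ((u : ℕ) : ℂ) - (α : ℂ) = (((u : ℕ) : ℝ) - α : ℝ) := by push_cast; ring
        rw [this, Complex.norm_real, Real.norm_eq_abs, abs_le]
        have hu : u = 0 ∨ u = 1 := by
          fin_cases u <;> simp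
        rcases hu with rfl | rfl
        · simp only [Fin.val_zero, Nat.cast_zero]
          constructor <;> linarith
        · simp only [Fin.val_one, Nat.cast_one]
          constructor <;> linarith
      have h3 := norm_add_le (z - (((u : ℕ) : ℂ) - (α : ℂ))) (((u : ℕ) : ℂ) - (α : ℂ))
      rw [sub_add_cancel] at h3
      linarith
  have hLpos : (0 : ℝ) < ((P ^ 7 : ℕ) : ℝ) ^ 4 := by positivity
  have h1 : 2 * (34 * (P : ℝ) ^ 2 * ((P ^ 7 : ℕ) : ℝ) ^ 4 * V₀) / ((P ^ 3 : ℕ) : ℝ) =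
        (68 * V₀ / P) * ((P ^ 7 : ℕ) : ℝ) ^ 4 := by
      push_cast
      field_simp
      ring
  rw [h1] at hju
  set Λ : ℝ := ((Fintype.card (Lamp (Fin m ⊕ Fin 2) (P ^ 3)) : ℕ) : ℝ) with hΛ
  have hΛ0 : 0 ≤ Λ := Nat.cast_nonneg _
  calc |∑ j ∈ Finset.range i, Tot (P ^ 3) α (P ^ 7) B ρ a d P x₀ (fun z => ∑ u : Fin 2,
      ((Qp α (G j) u).indicator (fun _ => (1 : ℝ)) z
          - (Qp α (G j) u).indicator (fun _ => (1 : ℝ)) (z - ((u : ℕ) - α : ℂ))))|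
      ≤ ∑ j ∈ Finset.range i, 2 * (Λ * (136 * P * ((P ^ 7 : ℕ) : ℝ) ^ 4 * vv j +
        (68 * V₀ / P) * ((P ^ 7 : ℕ) : ℝ) ^ 4)) := by
        refine (Finset.abs_sum_le_sum_abs _ _).trans (Finset.sum_le_sum fun j hj => ?_)
        rw [Tot_sum]
        refine (Finset.abs_sum_le_sum_abs _ _).trans ?_
        rw [Fin.sum_univ_two, two_mul]
        exact add_le_add (hju j (Finset.mem_range.mp hj) 0) (hju j (Finset.mem_range.mp hj) 1)
    _ = 272 * (∑ j ∈ Finset.range i, vv j) * (Λ * P * ((P ^ 7 : ℕ) : ℝ) ^ 4) +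
        i * (136 * V₀ / P) * Λ * ((P ^ 7 : ℕ) : ℝ) ^ 4 := by
        have : ∀ j, 2 * (Λ * (136 * P * ((P ^ 7 : ℕ) : ℝ) ^ 4 * vv j +
          (68 * V₀ / P) * ((P ^ 7 : ℕ) : ℝ) ^ 4)) =
          (272 * (Λ * P * ((P ^ 7 : ℕ) : ℝ) ^ 4)) * vv j +
            (136 * V₀ / P) * Λ * ((P ^ 7 : ℕ) : ℝ) ^ 4 := by
          intro j; ring
        simp only [this, Finset.sum_add_distrib, ← Finset.mul_sum, Finset.sum_const,
          Finset.card_range, nsmul_eq_mul]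
        ring
    _ ≤ 272 * (∑ j ∈ Finset.range i, vv j) * (Λ * P * ((P ^ 7 : ℕ) : ℝ) ^ 4) +
        P * (136 * V₀ / P) * Λ * ((P ^ 7 : ℕ) : ℝ) ^ 4 := by
        gcongr
    _ ≤ 272 * (∑ j ∈ Finset.range i, vv j) * (Λ * P * ((P ^ 7 : ℕ) : ℝ) ^ 4) +
        (c * P) * Λ * ((P ^ 7 : ℕ) : ℝ) ^ 4 := by
        have hkey : (P : ℝ) * (136 * V₀ / P) ≤ c * P := by
          have : (P : ℝ) * (136 * V₀ / P) = 136 * V₀ := by field_simp
          rw [this]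
          rw [div_le_iff₀ hc] at hA2
          linarith
        exact add_le_add le_rfl
          (mul_le_mul_of_nonneg_right (mul_le_mul_of_nonneg_right hkey hΛ0) hLpos.le)
    _ = _ := by ring

end GB
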