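import Pool.Agent.Helper63.GB2.Low

/-!
# MP_02f2ca_gt, dimension two : the main level
-/

open Set MeasureTheory Filter Topology

namespace GB

/-- size of the lamplighter set -/
lemma card_Lamp (ι : Type) [Fintype ι] [DecidableEq ι] (M : ℕ) :
    Fintype.card (Lamp ι M) =
      M ^ Fintype.card ι * M ^ (Fintype.card ι * M ^ Fintype.card ι) := by
  simp [Lamp, Fintype.card_prod, Fintype.card_fun, Fintype.card_fin]

/-- bound for the size of the configurations used at a level -/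
def kapp (i P : ℕ) : ℕ :=
  5236 * ((P ^ 3) ^ i * (P ^ 3) ^ (i * (P ^ 3) ^ i)) * P ^ 2 * (P ^ 7) ^ 4 +
    8 * ((P ^ 3) ^ i * (P ^ 3) ^ (i * (P ^ 3) ^ i) + 1) + 5 * P +
    2 * (5 * i ^ 2 * P ^ 3 + i * (P ^ 3) ^ i * P ^ 3 * (i + i * P ^ 3 * i * i))

lemma card_Lamp_le {ι : Type} [Fintype ι] [DecidableEq ι] {M i : ℕ} (hM : 1 ≤ M)
    (h : Fintype.card ι ≤ i) : Fintype.card (Lamp ι M) ≤ M ^ i * M ^ (i * M ^ i) := by
  rw [card_Lamp]
  have h1 : M ^ Fintype.card ι ≤ M ^ i := Nat.pow_le_pow_right hM h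
  have h2 : M ^ (Fintype.card ι * M ^ Fintype.card ι) ≤ M ^ (i * M ^ i) :=
    Nat.pow_le_pow_right hM (Nat.mul_le_mul h h1)
  exact Nat.mul_le_mul h1 h2

lemma vol_ball7 : (volume (Metric.closedBall (0 : ℂ) 7)).toReal ≤ 154 := by
  rw [Complex.volume_closedBall]
  simp only [ENNReal.toReal_mul, ENNReal.toReal_pow]
  rw [ENNReal.toReal_ofReal (by norm_num)]
  have h : ((NNReal.pi : NNReal) : ENNReal).toReal = Real.pi := rfl
  rw [h]
  have := Real.pi_lt_d4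
  nlinarith

/-- the relevant part of the configuration -/
noncomputable def relI {ι : Type} [Fintype ι] [DecidableEq ι] (M : ℕ) (α : ℝ) (L B : ℕ)
    (ρ a : ι → ℂ) (d : Derivation ℚ ℝ ℝ) (P : ℝ) : Finset (Lamp ι M × (ℤ × ℤ) × (ℤ × ℤ)) := by
  classical
  exact (Finset.univ ×ˢ (boxZ B ×ˢ boxZ B)).filter (fun γ =>
    ‖cder d (loc α L ρ a γ.1 γ.2.1 γ.2.2)‖ ≤ P ∧ ‖loc α L ρ a γ.1 γ.2.1 γ.2.2‖ ≤ 5)

lemma mem_relI {ι : Type} [Fintype ι] [DecidableEq ι] {M : ℕ} {α : ℝ} {L B : ℕ}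
    {ρ a : ι → ℂ} {d : Derivation ℚ ℝ ℝ} {P : ℝ} {γ : Lamp ι M × (ℤ × ℤ) × (ℤ × ℤ)} :
    γ ∈ relI M α L B ρ a d P ↔ (γ.2.1 ∈ boxZ B ∧ γ.2.2 ∈ boxZ B) ∧
      ‖cder d (loc α L ρ a γ.1 γ.2.1 γ.2.2)‖ ≤ P ∧ ‖loc α L ρ a γ.1 γ.2.1 γ.2.2‖ ≤ 5 := by
  classical
  unfold relI
  rw [Finset.mem_filter, Finset.mem_product, Finset.mem_product]
  simp

lemma sum_relI {ι : Type} [Fintype ι] [DecidableEq ι] {M : ℕ} {α : ℝ} {L B : ℕ}
    {ρ a : ι → ℂ} {d : Derivation ℚ ℝ ℝ} {P : ℝ} (F : Lamp ι M → ℤ × ℤ → ℤ × ℤ → ℝ)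
    (hF : ∀ x s v, s ∈ boxZ B → v ∈ boxZ B → (x, s, v) ∉ relI M α L B ρ a d P → F x s v = 0) :
    ∑ x, ∑ s ∈ boxZ B, ∑ v ∈ boxZ B, F x s v =
      ∑ γ ∈ relI M α L B ρ a d P, F γ.1 γ.2.1 γ.2.2 := by
  classical
  have h1 : ∑ x, ∑ s ∈ boxZ B, ∑ v ∈ boxZ B, F x s v =
      ∑ γ ∈ ((Finset.univ : Finset (Lamp ι M)) ×ˢ (boxZ B ×ˢ boxZ B)), F γ.1 γ.2.1 γ.2.2 := by
    rw [Finset.sum_product]
    refine Finset.sum_congr rfl fun x _ => ?_
    rw [Finset.sum_product]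
  rw [h1]
  symm
  apply Finset.sum_subset
  · intro γ hγ
    have := mem_relI.mp hγ
    rw [Finset.mem_product, Finset.mem_product]
    exact ⟨Finset.mem_univ _, this.1.1, this.1.2⟩
  · intro γ hγ hγ'
    rw [Finset.mem_product, Finset.mem_product] at hγ
    exact hF γ.1 γ.2.1 γ.2.2 hγ.2.1 hγ.2.2 hγ'

lemma card_relI {ι : Type} [Fintype ι] [DecidableEq ι] {M : ℕ} {α : ℝ} {L B : ℕ}
    {ρ a : ι → ℂ} {d : Derivation ℚ ℝ ℝ} {P : ℕ} (hL : 1 ≤ L) (hP : 1 ≤ P) (hd : d α = 1)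
    (hρ : ∀ i, ‖ρ i‖ = 1) (hκ : ∀ x : Lamp ι M, |kap d (lq ρ x.1)| ≤ L) :
    ((relI M α L B ρ a d P).card : ℝ) ≤
      5236 * Fintype.card (Lamp ι M) * (P : ℝ) ^ 2 * (L : ℝ) ^ 4 := by
  classical
  have h0 : ((relI M α L B ρ a d P).card : ℝ) = ∑ x : Lamp ι M,
      ((((boxZ B) ×ˢ (boxZ B)).filter (fun p =>
        ‖md α L (lq ρ x.1) (lh ρ a x.2) (cder d (lh ρ a x.2)) (kap d (lq ρ x.1)) p.1 p.2‖ ≤ P ∧
          mb α L (lq ρ x.1) (lh ρ a x.2) p.1 p.2 + lq ρ x.1 * 0 ∈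
            Metric.closedBall (0 : ℂ) 5)).card : ℝ) := by
    have : relI M α L B ρ a d P = (Finset.univ ×ˢ (boxZ B ×ˢ boxZ B)).filter (fun γ =>
      ‖cder d (loc α L ρ a γ.1 γ.2.1 γ.2.2)‖ ≤ P ∧ ‖loc α L ρ a γ.1 γ.2.1 γ.2.2‖ ≤ 5) := by
      ext γ
      rw [mem_relI, Finset.mem_filter, Finset.mem_product, Finset.mem_product]
      simp
    rw [this, Finset.card_filter]
    push_cast
    rw [Finset.sum_product]
    refine Finset.sum_congr rfl fun x _ => ?_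
    rw [Finset.card_filter]
    push_cast
    refine Finset.sum_congr rfl fun p _ => ?_
    simp only [loc, cder_mb d α hd L hL _ _ (norm_lq ρ hρ x.1), mul_zero, add_zero,
      mem_closedBall_zero_iff]
  rw [h0]
  have hc : ∀ x : Lamp ι M, ((((boxZ B) ×ˢ (boxZ B)).filter (fun p =>
        ‖md α L (lq ρ x.1) (lh ρ a x.2) (cder d (lh ρ a x.2)) (kap d (lq ρ x.1)) p.1 p.2‖ ≤ P ∧
          mb α L (lq ρ x.1) (lh ρ a x.2) p.1 p.2 + lq ρ x.1 * 0 ∈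
            Metric.closedBall (0 : ℂ) 5)).card : ℝ) ≤ 34 * (P : ℝ) ^ 2 * (L : ℝ) ^ 4 * 154 := by
    intro x
    refine (mesh_crude α L P hL hP _ (hκ x) _ _ _ 0 (norm_lq ρ hρ x.1) _
      Metric.isBounded_closedBall B).trans ?_
    gcongr
    refine le_trans (ENNReal.toReal_mono ?_ (measure_mono ?_)) vol_ball7
    · exact (Metric.isBounded_closedBall.measure_lt_top).ne
    · have hL0 : (0 : ℝ) < L := by exact_mod_cast (by omega : 0 < L)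
      rw [cthickening_closedBall (by positivity) (by norm_num)]
      apply Metric.closedBall_subset_closedBall
      have : 2 / (L : ℝ) ≤ 2 := by
        rw [div_le_iff₀ hL0]
        have : (1 : ℝ) ≤ L := by exact_mod_cast hL
        linarith
      linarith
  calc _ ≤ ∑ x : Lamp ι M, 34 * (P : ℝ) ^ 2 * (L : ℝ) ^ 4 * 154 :=
        Finset.sum_le_sum fun x _ => hc x
    _ = _ := by
        rw [Finset.sum_const, Finset.card_univ, nsmul_eq_mul]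
        ring

end GB
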