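import Pool.Agent.Helper63.GB2.MainEst

/-!
# MP_02f2ca_gt, dimension two : the main level, continued
-/

open Set MeasureTheory Filter Topology

namespace GB

theorem main_estimate {ι : Type} [Fintype ι] [DecidableEq ι] {a₁ a₂ : ℝ} (hα : QIndep a₁ a₂)
    (ρ a : ι → ℂ) (hρ : ∀ i, ‖ρ i‖ = 1) (d₁ d₂ : Derivation ℚ ℝ ℝ)
    (h11 : d₁ a₁ = 1) (h12 : d₁ a₂ = 0) (h21 : d₂ a₁ = 0) (h22 : d₂ a₂ = 1)
    (thr2 : ℝ → ℕ) (hthr2 : ∀ w, 0 < w → 16 / w ≤ thr2 w) (κ : ℕ → ℕ → ℕ)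
    (hκ : ∀ i P, kapp i P ≤ κ i P) (e : ℕ → ℝ)
    (he : ∀ n : ℕ, 1 ≤ n → e n ≤ 1 / (64 * (n : ℝ) ^ 2 * 4 ^ n)) (μ₀ : ℝ) :
    ∃ n₁ : ℕ, ∀ (i : ℕ) (ε : ℝ) (θ : ℕ) (X : Lev), n₁ ≤ i → ε ≤ 1 / 2 →
      Good a₁ a₂ thr2 κ e μ₀ i ε θ X → ∃ B₀ : ℕ, ∀ B : ℕ, B₀ ≤ B →
      ∃ U : Set ℂ, IsOpen U ∧ U.Nonempty ∧ U ⊆ Metric.ball 0 (X.w / 4) ∧ ∀ x₀ ∈ U,
        Tot (X.P ^ 3) a₁ (X.P ^ 7) B ρ a d₁ X.P x₀ (Fl a₁ X.G) ≤
          -(Fintype.card (Lamp ι (X.P ^ 3)) * X.P * ((X.P ^ 7 : ℕ) : ℝ) ^ 4 / 458752) ∧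
        ∀ γ ∈ relI (X.P ^ 3) a₁ (X.P ^ 7) B ρ a d₁ X.P, ∀ u : ℤ,
          (loc a₁ (X.P ^ 7) ρ a γ.1 γ.2.1 γ.2.2 + lq ρ γ.1.1 * x₀).re + u ∉ Ioo 0 X.ε' := by
  classical
  set n := Fintype.card ι with hn
  set K₁ : ℝ := ∑ i, |kap d₁ (ρ i)| with hK₁
  set K₂ : ℝ := ∑ i, |kap d₂ (ρ i)| with hK₂
  set A₀ : ℝ := ∑ i, (‖a i‖ + ‖cder d₂ (a i)‖) with hA₀
  have hk1 : ∀ i, |kap d₁ (ρ i)| ≤ K₁ := fun i =>
    Finset.single_le_sum (f := fun i => |kap d₁ (ρ i)|) (fun _ _ => abs_nonneg _)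
      (Finset.mem_univ i)
  have hk2 : ∀ i, |kap d₂ (ρ i)| ≤ K₂ := fun i =>
    Finset.single_le_sum (f := fun i => |kap d₂ (ρ i)|) (fun _ _ => abs_nonneg _)
      (Finset.mem_univ i)
  have ha0 : ∀ i, ‖a i‖ + ‖cder d₂ (a i)‖ ≤ A₀ := fun i =>
    Finset.single_le_sum (f := fun i => ‖a i‖ + ‖cder d₂ (a i)‖) (fun _ _ => by positivity)
      (Finset.mem_univ i)
  have hK₁0 : 0 ≤ K₁ := Finset.sum_nonneg fun _ _ => abs_nonneg _
  have hK₂0 : 0 ≤ K₂ := Finset.sum_nonneg fun _ _ => abs_nonneg _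
  have hA₀0 : 0 ≤ A₀ := Finset.sum_nonneg fun _ _ => by positivity
  obtain ⟨n₂, hn₂⟩ := exists_nat_ge (K₁ + K₂ + A₀)
  refine ⟨n₂ + n + 16, fun i ε θ X hi hε hX => ?_⟩
  have hin : n ≤ i := by omega
  have hiR : K₁ + K₂ + A₀ ≤ i := hn₂.trans (by exact_mod_cast (by omega))
  have hiK1 : K₁ ≤ i := by linarith
  have hiK2 : K₂ ≤ i := by linarith
  have hiA : A₀ ≤ i := by linarith
  have hi16 : 16 ≤ i := by omega
  set P := X.P with hPdef
  set M := P ^ 3 with hMdef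
  set L := P ^ 7 with hLdef
  have hiP : i ≤ P := by
    have := hX.Pθ
    nlinarith
  have hP16 : 16 ≤ P := hi16.trans hiP
  have hP0 : (0 : ℝ) < P := by exact_mod_cast (by omega : 0 < P)
  have hP1 : (1 : ℝ) ≤ P := by exact_mod_cast (by omega : 1 ≤ P)
  have hiPR : (i : ℝ) ≤ P := by exact_mod_cast hiP
  have hM1 : 1 ≤ M := Nat.one_le_pow _ _ (by omega)
  have hL1 : 1 ≤ L := Nat.one_le_pow _ _ (by omega)
  have hPL : P ≤ L := Nat.le_self_pow (by norm_num) P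
  have hnorm : ∀ x : Lamp ι M, ‖lq ρ x.1‖ = 1 := fun x => norm_lq ρ hρ x.1
  have hw0 := hX.wpos
  have hwε := hX.wε
  have hw16 : X.w < 1 / 16 := by linarith
  -- threshold
  have hwP : 16 ≤ X.w * P := by
    have h1 := hX.Pthr2
    have h2 := hthr2 X.w hw0
    have h3 : (thr2 X.w : ℝ) ≤ P := by
      have : i * thr2 X.w ≤ P := h1
      have h4 : thr2 X.w ≤ P := by nlinarith
      exact_mod_cast h4
    have h5 : 16 / X.w ≤ P := h2.trans h3
    rw [div_le_iff₀ hw0] at h5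
    linarith
  have hPLR : (P : ℝ) ≤ L := by exact_mod_cast hPL
  have hwL : 16 ≤ X.w * L := hwP.trans (by gcongr)
  -- K
  set ΛN : ℕ := M ^ i * M ^ (i * M ^ i) with hΛN
  have hcardΛ : Fintype.card (Lamp ι M) ≤ ΛN := card_Lamp_le hM1 hin
  have hKκ : kapp i P ≤ X.K := (hκ i P).trans hX.Kκ
  have hkapp : kapp i P = 5236 * ΛN * P ^ 2 * L ^ 4 + 8 * (ΛN + 1) + 5 * P +
      2 * (5 * i ^ 2 * M + i * M ^ i * M * (i + i * M * i * i)) := rfl
  have hK_a : 5236 * ΛN * P ^ 2 * L ^ 4 ≤ X.K := by omega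
  have hK_b : 8 * (ΛN + 1) ≤ X.K := by omega
  have hK_c : 5 * P ≤ X.K := by omega
  have hK_d : 2 * (5 * i ^ 2 * M + i * M ^ i * M * (i + i * M * i * i)) ≤ X.K := by omega
  have hK1 : 1 ≤ X.K := by omega
  have hK0 : (0 : ℝ) < X.K := by exact_mod_cast hK1
  -- kap bounds
  have hkap1 : ∀ x : Lamp ι M, |kap d₁ (lq ρ x.1)| ≤ (L : ℝ) := by
    intro x
    refine (kap_lq d₁ ρ hρ x.1 K₁ hk1).trans ?_
    have h1 : (Fintype.card ι : ℝ) * M * K₁ ≤ P * M * P := by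
      have : (Fintype.card ι : ℝ) ≤ P := by exact_mod_cast hin.trans hiP
      gcongr
      exact hiK1.trans hiPR
    refine h1.trans ?_
    have h2 : (P : ℝ) * M * P = (P : ℝ) ^ 5 := by rw [hMdef]; push_cast; ring
    rw [h2, hLdef]
    push_cast
    exact pow_le_pow_right₀ hP1 (by norm_num)
  -- the relevant index set
  set I : ℕ → Finset (Lamp ι M × (ℤ × ℤ) × (ℤ × ℤ)) := fun B => relI M a₁ L B ρ a d₁ P with hI
  have hIcard : ∀ B, (I B).card ≤ X.K := by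
    intro B
    have h1 := card_relI (B := B) (ρ := ρ) (a := a) (M := M) hL1 (by omega : 1 ≤ P) h11 hρ hkap1
    have h2 : (5236 * Fintype.card (Lamp ι M) * (P : ℝ) ^ 2 * (L : ℝ) ^ 4) ≤ (X.K : ℝ) := by
      calc (5236 * Fintype.card (Lamp ι M) * (P : ℝ) ^ 2 * (L : ℝ) ^ 4) ≤
          5236 * (ΛN : ℝ) * (P : ℝ) ^ 2 * (L : ℝ) ^ 4 := by
            have : (Fintype.card (Lamp ι M) : ℝ) ≤ ΛN := by exact_mod_cast hcardΛ
            gcongr
        _ ≤ (X.K : ℝ) := by exact_mod_cast hK_a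
    exact_mod_cast h1.trans h2
  -- the direction
  set Q : Finset ℂ := Finset.univ.image (fun x : Lamp ι M => lq ρ x.1) with hQ
  have hQn : ∀ q ∈ Q, ‖q‖ = 1 := by
    intro q hq
    rw [hQ, Finset.mem_image] at hq
    obtain ⟨x, _, rfl⟩ := hq
    exact hnorm x
  obtain ⟨τ, hτ, hτ1, hτ2⟩ := exists_direction Q hQn
  have hQx : ∀ x : Lamp ι M, lq ρ x.1 ∈ Q := fun x => by
    rw [hQ, Finset.mem_image]
    exact ⟨x, Finset.mem_univ _, rfl⟩
  have hQcard : Q.card ≤ ΛN := by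
    refine (Finset.card_image_le).trans ?_
    rw [Finset.card_univ]
    exact hcardΛ
  have hslope : 1 / (X.K : ℝ) ≤ 1 / (8 * ((Q.card : ℝ) + 1)) := by
    apply one_div_le_one_div_of_le
    · positivity
    · have : 8 * (Q.card + 1) ≤ X.K := by omega
      exact_mod_cast this
  -- thresholds for the lower bound
  have hlow := fun x : Lamp ι M => mesh_lower a₁ X.w hw0 (by linarith) L P hwL hP16
    (kap d₁ (lq ρ x.1)) (hkap1 x) (lq ρ x.1) (lh ρ a x.2) (cder d₁ (lh ρ a x.2)) (hnorm x)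
  choose Bf hBf using hlow
  refine ⟨∑ x, Bf x, fun B hB => ?_⟩
  have hBx : ∀ x, Bf x ≤ B := fun x => (Finset.single_le_sum (f := fun x => Bf x)
    (fun _ _ => Nat.zero_le _) (Finset.mem_univ x)).trans hB
  -- bound for the second derivative
  have hd2 : ∀ γ ∈ I B, ‖cder d₂ (loc a₁ L ρ a γ.1 γ.2.1 γ.2.2)‖ ≤ (X.K : ℝ) / 2 := by
    intro γ hγ
    have hγ' := mem_relI.mp hγ
    have h1 := cder_mb_zero d₂ a₁ h21 L hL1 (lq ρ γ.1.1) (lh ρ a γ.1.2) (hnorm γ.1) γ.2.1 γ.2.2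
    have h2 : ‖cder d₂ (loc a₁ L ρ a γ.1 γ.2.1 γ.2.2)‖ ≤
        |kap d₂ (lq ρ γ.1.1)| * 5 + ‖cder d₂ (lh ρ a γ.1.2)‖ := by
      unfold loc
      rw [h1]
      refine (norm_add_le _ _).trans ?_
      rw [norm_mul, norm_mul, norm_mul, Complex.norm_I, one_mul, Complex.norm_real,
        Real.norm_eq_abs, hnorm γ.1, one_mul]
      gcongr
      exact hγ'.2.2
    have h3 := kap_lq d₂ ρ hρ γ.1.1 K₂ hk2
    have h4 := cder_lh d₂ ρ a hρ γ.1.2 K₂ A₀ hk2
      (fun i => by have := ha0 i; have := norm_nonneg (cder d₂ (a i)); linarith)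
      (fun i => by have := ha0 i; have := norm_nonneg (a i); linarith)
    have hnR : (Fintype.card ι : ℝ) ≤ i := by exact_mod_cast hin
    have hM1R : (1 : ℝ) ≤ M := by exact_mod_cast hM1
    have h5 : |kap d₂ (lq ρ γ.1.1)| ≤ i * M * i := h3.trans (by gcongr)
    have h6 : ‖cder d₂ (lh ρ a γ.1.2)‖ ≤
        i * (M : ℝ) ^ i * M * (i + i * M * i * i) := by
      refine h4.trans ?_
      gcongr
    have h7 : (2 * (5 * i ^ 2 * M + i * M ^ i * M * (i + i * M * i * i)) : ℝ) ≤ X.K := by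
      exact_mod_cast hK_d
    have : ‖cder d₂ (loc a₁ L ρ a γ.1 γ.2.1 γ.2.2)‖ ≤
        i * M * i * 5 + i * (M : ℝ) ^ i * M * (i + i * M * i * i) := by
      refine h2.trans (add_le_add ?_ h6)
      gcongr
    nlinarith
  have hML := main_level_plane hα hX (he X.K hK1) hK_c (by
      have h1 : (P : ℝ) ≤ X.K := by exact_mod_cast (by omega : P ≤ X.K)
      nlinarith) (I B) (hIcard B) (fun γ => lq ρ γ.1.1)
    (fun γ => (loc a₁ L ρ a γ.1 γ.2.1 γ.2.2).re)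
    (fun γ => bump P (cder d₁ (loc a₁ L ρ a γ.1 γ.2.1 γ.2.2)) *
      (smallbox X.w).indicator (fun _ => (1 : ℝ)) (loc a₁ L ρ a γ.1 γ.2.1 γ.2.2)) τ hτ
    (fun γ _ => hnorm γ.1) (fun γ _ => hslope.trans (hτ1 _ (hQx γ.1)))
    (fun γ _ γ' _ h => hτ2 _ (hQx γ.1) _ (hQx γ'.1) h)
    (by
      intro γ hγ γ' hγ' _ v u hvu
      have hγ1 := mem_relI.mp hγ
      have hγ'1 := mem_relI.mp hγ'
      have e1 : ∀ d : Derivation ℚ ℝ ℝ, d (Lf a₁ a₂ v + u) = v.1 * d a₁ + v.2 * d a₂ := by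
        intro d
        unfold Lf
        rw [map_add, map_add, Derivation.leibniz, Derivation.leibniz, Derivation.map_intCast,
          Derivation.map_intCast, Derivation.map_intCast]
        simp only [smul_eq_mul]
        ring
      have e2 : ∀ (d : Derivation ℚ ℝ ℝ) (z : ℂ), |d z.re| ≤ ‖cder d z‖ := by
        intro d z
        have := Complex.abs_re_le_norm (cder d z)
        exact this
      have e3 : ∀ d : Derivation ℚ ℝ ℝ, (v.1 * d a₁ + v.2 * d a₂ : ℝ) =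
          d (loc a₁ L ρ a γ.1 γ.2.1 γ.2.2).re - d (loc a₁ L ρ a γ'.1 γ'.2.1 γ'.2.2).re := by
        intro d
        rw [← e1, ← hvu, map_sub]
      constructor
      · have h1 := e3 d₁
        rw [h11, h12, mul_one, mul_zero, add_zero] at h1
        have h2 := (e2 d₁ (loc a₁ L ρ a γ.1 γ.2.1 γ.2.2)).trans hγ1.2.1
        have h3 := (e2 d₁ (loc a₁ L ρ a γ'.1 γ'.2.1 γ'.2.2)).trans hγ'1.2.1
        have h4 : |(v.1 : ℝ)| ≤ 2 * P := by
          rw [h1]
          refine (abs_sub _ _).trans ?_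
          linarith
        exact_mod_cast h4
      · have h1 := e3 d₂
        rw [h21, h22, mul_one, mul_zero, zero_add] at h1
        have h2 := (e2 d₂ (loc a₁ L ρ a γ.1 γ.2.1 γ.2.2)).trans (hd2 γ hγ)
        have h3 := (e2 d₂ (loc a₁ L ρ a γ'.1 γ'.2.1 γ'.2.2)).trans (hd2 γ' hγ')
        have h4 : |(v.2 : ℝ)| ≤ X.K := by
          rw [h1]
          refine (abs_sub _ _).trans ?_
          linarith
        exact_mod_cast h4)
    (fun γ _ => mul_nonneg (bump_nonneg _ _) (indicator_nonneg (fun _ _ => zero_le_one) _))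
    (by
      intro γ _ hne
      have hmem : loc a₁ L ρ a γ.1 γ.2.1 γ.2.2 ∈ smallbox X.w := by
        by_contra hcon
        apply hne
        simp only [indicator_of_notMem hcon, mul_zero]
      refine ⟨-2, ?_⟩
      obtain ⟨h1, _⟩ := hmem
      constructor
      · push_cast
        linarith [h1.1]
      · push_cast
        linarith [h1.2])
  obtain ⟨U, hUo, hUne, hUb, hU⟩ := hML
  refine ⟨U, hUo, hUne, hUb, fun x₀ hx₀ => ?_⟩
  obtain ⟨hval, havoid, hsum⟩ := hU x₀ hx₀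
  have hx₀n : ‖x₀‖ < X.w / 4 := by
    have := hUb hx₀
    rwa [mem_ball_zero_iff] at this
  have hre : ∀ γ : Lamp ι M × (ℤ × ℤ) × (ℤ × ℤ),
      (lq ρ γ.1.1 * x₀).re + (loc a₁ L ρ a γ.1 γ.2.1 γ.2.2).re =
      (loc a₁ L ρ a γ.1 γ.2.1 γ.2.2 + lq ρ γ.1.1 * x₀).re := by
    intro γ
    rw [Complex.add_re]
    ring
  constructor
  · -- the estimate
    have hT : Tot M a₁ L B ρ a d₁ P x₀ (Fl a₁ X.G) =
        ∑ γ ∈ I B, bump P (cder d₁ (loc a₁ L ρ a γ.1 γ.2.1 γ.2.2)) *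
          Fl a₁ X.G (loc a₁ L ρ a γ.1 γ.2.1 γ.2.2 + lq ρ γ.1.1 * x₀) := by
      unfold Tot
      apply sum_relI (F := fun x s v => bump P (cder d₁ (loc a₁ L ρ a x s v)) *
        Fl a₁ X.G (loc a₁ L ρ a x s v + lq ρ x.1 * x₀))
      intro x s v hs hv hnot
      rw [mem_relI] at hnot
      push Not at hnot
      by_cases h1 : ‖cder d₁ (loc a₁ L ρ a x s v)‖ ≤ P
      · have h2 := hnot ⟨hs, hv⟩ h1
        have h3 : loc a₁ L ρ a x s v + lq ρ x.1 * x₀ ∉ sq2 := by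
          intro hmem
          have h4 := norm_le_of_sq2 hmem
          have h5 : ‖lq ρ x.1 * x₀‖ < 1 := by
            rw [norm_mul, hnorm x, one_mul]
            linarith
          have h6 := norm_sub_le (loc a₁ L ρ a x s v + lq ρ x.1 * x₀) (lq ρ x.1 * x₀)
          rw [add_sub_cancel_right] at h6
          linarith
        unfold Fl
        rw [indicator_of_notMem h3, mul_zero]
      · rw [bump_zero hP0 (not_le.mp h1).le, zero_mul]
    rw [hT]
    have hle : ∀ γ ∈ I B, bump P (cder d₁ (loc a₁ L ρ a γ.1 γ.2.1 γ.2.2)) *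
          Fl a₁ X.G (loc a₁ L ρ a γ.1 γ.2.1 γ.2.2 + lq ρ γ.1.1 * x₀) ≤
        bump P (cder d₁ (loc a₁ L ρ a γ.1 γ.2.1 γ.2.2)) *
          (smallbox X.w).indicator (fun _ => (1 : ℝ)) (loc a₁ L ρ a γ.1 γ.2.1 γ.2.2) *
          (cob a₁ X.G ((lq ρ γ.1.1 * x₀).re + (loc a₁ L ρ a γ.1 γ.2.1 γ.2.2).re) : ℝ) := by
      intro γ hγ
      have hv := hval γ hγ
      rw [hre γ] at hv ⊢
      set z := loc a₁ L ρ a γ.1 γ.2.1 γ.2.2 with hz
      set y := z + lq ρ γ.1.1 * x₀ with hy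
      have hb := bump_nonneg P (cder d₁ z)
      by_cases hsm : z ∈ smallbox X.w
      · have hys : y ∈ sq2 := by
          have h5 : ‖lq ρ γ.1.1 * x₀‖ < X.w / 4 := by
            rw [norm_mul, hnorm γ.1, one_mul]
            exact hx₀n
          have h6 := (Complex.abs_re_le_norm (lq ρ γ.1.1 * x₀)).trans_lt h5
          have h7 := (Complex.abs_im_le_norm (lq ρ γ.1.1 * x₀)).trans_lt h5
          rw [abs_lt] at h6 h7
          obtain ⟨h8, h9⟩ := hsm
          refine ⟨⟨?_, ?_⟩, ⟨?_, ?_⟩⟩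
          · rw [hy, Complex.add_re]; linarith [h8.1]
          · rw [hy, Complex.add_re]; linarith [h8.2]
          · rw [hy, Complex.add_im]; linarith [h9.1]
          · rw [hy, Complex.add_im]; linarith [h9.2]
        rw [indicator_of_mem hsm, mul_one]
        unfold Fl
        rw [indicator_of_mem hys]
      · rw [indicator_of_notMem hsm, mul_zero, zero_mul]
        apply mul_nonpos_of_nonneg_of_nonpos hb
        unfold Fl
        by_cases hys : y ∈ sq2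
        · rw [indicator_of_mem hys]
          rcases hv with hv | hv
          · rw [hv]; simp
          · rw [hv]; simp
        · rw [indicator_of_notMem hys]
    refine (Finset.sum_le_sum hle).trans (hsum.trans ?_)
    -- lower bound of the weight of the small box
    have hW : (Fintype.card (Lamp ι M) : ℝ) * (X.w * (P : ℝ) ^ 2 * (L : ℝ) ^ 4 / 2048) ≤
        ∑ γ ∈ I B, bump P (cder d₁ (loc a₁ L ρ a γ.1 γ.2.1 γ.2.2)) *
          (smallbox X.w).indicator (fun _ => (1 : ℝ)) (loc a₁ L ρ a γ.1 γ.2.1 γ.2.2) := by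
      rw [← sum_relI (F := fun x s v => bump P (cder d₁ (loc a₁ L ρ a x s v)) *
        (smallbox X.w).indicator (fun _ => (1 : ℝ)) (loc a₁ L ρ a x s v))]
      · calc (Fintype.card (Lamp ι M) : ℝ) * (X.w * (P : ℝ) ^ 2 * (L : ℝ) ^ 4 / 2048) =
            ∑ x : Lamp ι M, X.w * (P : ℝ) ^ 2 * (L : ℝ) ^ 4 / 2048 := by
              rw [Finset.sum_const, Finset.card_univ, nsmul_eq_mul]
          _ ≤ _ := by
              refine Finset.sum_le_sum fun x _ => ?_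
              have := hBf x B (hBx x)
              simp only [loc, cder_mb d₁ a₁ h11 L hL1 _ _ (hnorm x)]
              exact this
      · intro x s v hs hv hnot
        rw [mem_relI] at hnot
        push Not at hnot
        by_cases h1 : ‖cder d₁ (loc a₁ L ρ a x s v)‖ ≤ P
        · have h2 := hnot ⟨hs, hv⟩ h1
          have h3 : loc a₁ L ρ a x s v ∉ smallbox X.w := by
            intro hmem
            obtain ⟨h8, h9⟩ := hmem
            have h4 := Complex.norm_le_abs_re_add_abs_im (loc a₁ L ρ a x s v)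
            have h5 : |(loc a₁ L ρ a x s v).re| ≤ 3 := by
              rw [abs_le]; constructor <;> linarith [h8.1, h8.2]
            have h6 : |(loc a₁ L ρ a x s v).im| ≤ 1 := by
              rw [abs_le]; constructor <;> linarith [h9.1, h9.2]
            linarith
          rw [indicator_of_notMem h3, mul_zero]
        · rw [bump_zero hP0 (not_le.mp h1).le, zero_mul]
    have hgap := hX.gap
    have hg0 : (0 : ℝ) ≤ X.g := Nat.cast_nonneg _
    have hcoef : 0 ≤ (X.g : ℝ) / (7 * X.P) := by positivity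
    have h1 : -((X.g : ℝ) / (7 * X.P)) * ∑ γ ∈ I B,
        bump P (cder d₁ (loc a₁ L ρ a γ.1 γ.2.1 γ.2.2)) *
          (smallbox X.w).indicator (fun _ => (1 : ℝ)) (loc a₁ L ρ a γ.1 γ.2.1 γ.2.2) ≤
        -((X.g : ℝ) / (7 * X.P)) * ((Fintype.card (Lamp ι M) : ℝ) *
          (X.w * (P : ℝ) ^ 2 * (L : ℝ) ^ 4 / 2048)) := by
      rw [neg_mul, neg_mul, neg_le_neg_iff]
      exact mul_le_mul_of_nonneg_left hW hcoef
    refine h1.trans ?_
    have h2 : -((X.g : ℝ) / (7 * X.P)) * ((Fintype.card (Lamp ι M) : ℝ) *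
          (X.w * (P : ℝ) ^ 2 * (L : ℝ) ^ 4 / 2048)) =
        -((32 * (X.g : ℝ) * X.w) * (Fintype.card (Lamp ι M) * P * (L : ℝ) ^ 4 / 458752)) := by
      rw [← hPdef]
      field_simp
      ring
    rw [h2, neg_le_neg_iff]
    have h3 : 0 ≤ (Fintype.card (Lamp ι M) : ℝ) * P * (L : ℝ) ^ 4 / 458752 := by positivity
    nlinarith
  · intro γ hγ u
    have := havoid γ hγ u
    rwa [hre γ] at this

end GB
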