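import Pool.Agent.Helper63.GB2.Defs
import Pool.Agent.Helper73.GB2.Deriv
import Pool.Agent.Helper1.GB2.AlgIndep
import Pool.Agent.Helper88.GB2.B3
import Pool.Agent.Helper44.GB2.FluxPlane
import Pool.Agent.Helper77.GB2.MeshCrude
import Pool.Agent.Helper76.GB2.MeshLower
import Pool.Agent.Helper46.GB2.Fine
import Pool.Agent.Helper1.GB2.Direction
import Pool.Agent.Helper24.GB2.MainLevelPlane
import Pool.Agent.Helper7.GB2.LampMove
import Pool.Agent.Helper23.GB2.CDer
import Pool.Agent.Helper70.GB2.BodyDiff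
import Pool.Agent.Helper79.GB2.FluxVol
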