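import Pool.Agent.Helper63.GB2.MainEst2

/-!
# MP_02f2ca_gt, dimension two : the obstruction
-/

open Set MeasureTheory Filter Topology

namespace GB

lemma ae_move {p : ℂ → Prop} (h : ∀ᵐ z : ℂ, p z) (b q : ℂ) (hq : ‖q‖ = 1) :
    ∀ᵐ x : ℂ, p (b + q * x) := by
  have hq0 : q ≠ 0 := by
    intro h0
    rw [h0, norm_zero] at hq
    norm_num at hq
  have h1 : MeasurePreserving (fun x : ℂ => b + x) volume volume := measurePreserving_add_left _ b
  have h2 : MeasurePreserving (fun x : ℂ => q * x) volume volume := by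
    have := (rotation ⟨q, by simp [Submonoid.unitSphere, hq]⟩).measurePreserving
    exact this
  exact (h1.comp h2).quasiMeasurePreserving.ae h

lemma ae_re_ne (c : ℝ) : ∀ᵐ z : ℂ, z.re ≠ c := by
  have h := Complex.volume_preserving_equiv_real_prod
  have h1 : ∀ᵐ p : ℝ × ℝ, p.1 ≠ c := by
    have h2 : ∀ᵐ x : ℝ, x ≠ c := by
      rw [ae_iff]
      simp
    exact (Measure.quasiMeasurePreserving_fst (μ := (volume : Measure ℝ))
      (ν := (volume : Measure ℝ))).ae h2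
  exact h.quasiMeasurePreserving.ae h1

lemma Tot_congr {ι : Type} [Fintype ι] [DecidableEq ι] {M : ℕ} {α : ℝ} {L B : ℕ}
    {ρ a : ι → ℂ} {d : Derivation ℚ ℝ ℝ} {P : ℝ} {x₀ : ℂ} {F F' : ℂ → ℝ} (hP : 0 < P)
    (h : ∀ (x : Lamp ι M) (s v : ℤ × ℤ), s ∈ boxZ B → v ∈ boxZ B →
      ‖cder d (loc α L ρ a x s v)‖ ≤ P → F (loc α L ρ a x s v + lq ρ x.1 * x₀) =
        F' (loc α L ρ a x s v + lq ρ x.1 * x₀)) :
    Tot M α L B ρ a d P x₀ F = Tot M α L B ρ a d P x₀ F' := by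
  unfold Tot
  refine Finset.sum_congr rfl fun x _ => Finset.sum_congr rfl fun s hs =>
    Finset.sum_congr rfl fun v hv => ?_
  by_cases h1 : ‖cder d (loc α L ρ a x s v)‖ ≤ P
  · rw [h x s v hs hv h1]
  · rw [bump_zero hP (not_le.mp h1).le, zero_mul, zero_mul]

lemma cyl_body_norm {a₁ : ℝ} {X : ℕ → Lev} {σ : ℤ} {z : ℂ} (hz : z ∈ cyl (body a₁ X σ)) :
    ‖z‖ ≤ 4 := by
  obtain ⟨h1, h2⟩ := hz
  have h := Complex.norm_le_abs_re_add_abs_im z
  have h3 : |z.re| ≤ 3 := by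
    rcases h1 with h1 | ⟨x, hx, hxz⟩
    · rw [abs_le]; constructor <;> linarith [h1.1, h1.2]
    · have hx1 := hx.1
      have : x + 2 = z.re := hxz
      rw [abs_le]; constructor <;> linarith [hx1.1, hx1.2]
  have h4 : |z.im| ≤ 1 := by rw [abs_le]; constructor <;> linarith [h2.1, h2.2]
  linarith

lemma cyl_symm (A : Set ℝ) (z : ℂ) : (starRingEnd ℂ) z + Complex.I ∈ cyl A ↔ z ∈ cyl A := by
  unfold cyl
  constructor
  · rintro ⟨h1, h2⟩
    rw [Complex.add_re, Complex.conj_re, Complex.I_re, add_zero] at h1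
    rw [Complex.add_im, Complex.conj_im, Complex.I_im] at h2
    exact ⟨h1, by linarith [h2.2], by linarith [h2.1]⟩
  · rintro ⟨h1, h2⟩
    refine ⟨?_, ?_⟩
    · rw [Complex.add_re, Complex.conj_re, Complex.I_re, add_zero]
      exact h1
    · rw [Complex.add_im, Complex.conj_im, Complex.I_im]
      exact ⟨by linarith [h2.2], by linarith [h2.1]⟩

/-- the constant for the volumes of the levels -/
noncomputable def mu2 : ℝ := 1 / 10 ^ 10

lemma mu2_pos : 0 < mu2 := by unfold mu2; norm_num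

open Classical in
/-- thresholds for the lower levels -/
noncomputable def thrP (a₁ : ℝ) (j : ℕ) (G : Set ℝ) : ℕ :=
  if h : Per G ∧ volume (frontier G) = 0 then
    Classical.choose (Qp_vol a₁ G h.1 h.2 (mu2 / 2 ^ j) (by have := mu2_pos; positivity))
  else 0

lemma thrP_spec (a₁ : ℝ) (j : ℕ) (G : Set ℝ) (h1 : Per G) (h2 : volume (frontier G) = 0)
    (L : ℕ) (hL : thrP a₁ j G ≤ L) (u : Fin 2) :
    (volume (Metric.cthickening (2 / (L : ℝ)) (Qp a₁ G u))).toReal ≤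
        (volume (G ∩ Icc 0 1)).toReal + mu2 / 2 ^ j := by
  have h : Per G ∧ volume (frontier G) = 0 := ⟨h1, h2⟩
  unfold thrP at hL
  rw [dif_pos h] at hL
  exact Classical.choose_spec (Qp_vol a₁ G h.1 h.2 (mu2 / 2 ^ j)
    (by have := mu2_pos; positivity)) L hL u

/-- thresholds for `w` -/
noncomputable def thr2P (w : ℝ) : ℕ := ⌈16 / w⌉₊

/-- lengths of intervals -/
noncomputable def eP (n : ℕ) : ℝ := 1 / (64 * ((n : ℝ) + 1) ^ 2 * 4 ^ n)

lemma geom_sum_le (i : ℕ) : ∑ j ∈ Finset.range i, (1 : ℝ) / 2 ^ j ≤ 2 := by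
  have h : ∀ i : ℕ, ∑ j ∈ Finset.range i, (1 : ℝ) / 2 ^ j = 2 - 2 / 2 ^ i := by
    intro i
    induction i with
    | zero => simp
    | succ i ih =>
      rw [Finset.sum_range_succ, ih, pow_succ]
      field_simp
      ring
  rw [h]
  have : (0 : ℝ) ≤ 2 / 2 ^ i := by positivity
  linarith

theorem not_equidecGeom_plane' (a₁ a₂ : ℝ) (h0 : 0 < a₁) (h1 : a₁ < 1)
    (hind : AlgebraicIndependent ℚ ![a₁, a₂]) (X : ℕ → Lev) (ε : ℕ → ℝ) (θ : ℕ → ℕ)
    (hLev : Levels a₁ a₂ (thrP a₁) thr2P kapp eP mu2 X ε θ)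
    (hgA : IsGeomBody (cyl (body a₁ X 1))) (hgB : IsGeomBody (cyl (body a₁ X (-1)))) :
    ¬ EquidecGeom (cyl (body a₁ X 1)) (cyl (body a₁ X (-1))) := by
  classical
  intro hE
  have hα : QIndep a₁ a₂ := qindep_of_algIndep hind
  obtain ⟨d₁, h11, h12⟩ := exists_derivation a₁ a₂ hind 1 0
  obtain ⟨d₂, h21, h22⟩ := exists_derivation a₁ a₂ hind 0 1
  obtain ⟨m, D, ρ₀, a₀, hρ₀, hD, hflux⟩ := flux_plane _ _ hgA hgB (cyl_symm _) (cyl_symm _) hE
  set ρ := rhoS ρ₀ with hρdef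
  set a := trS a₁ a₀ with hadef
  have hρ : ∀ i, ‖ρ i‖ = 1 := rhoS_norm hρ₀
  obtain ⟨n₁, hn₁⟩ := adv_estimate D ρ₀ a₀ hρ₀ hD a₁ d₁ h11 (1 / 10 ^ 7) (by norm_num)
  obtain ⟨n₂, hn₂⟩ := lower_estimate ρ₀ a₀ hρ₀ a₁ h0 h1 d₁ h11 (1 / 10 ^ 7) (by norm_num)
  obtain ⟨n₃, hn₃⟩ := main_estimate hα ρ a hρ d₁ d₂ h11 h12 h21 h22 thr2P
    (fun w _ => Nat.le_ceil _) kapp (fun _ _ => le_rfl) eP (by
      intro n hn
      unfold eP
      have hn0 : (0 : ℝ) < n := by exact_mod_cast hn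
      apply one_div_le_one_div_of_le
      · positivity
      · gcongr
        linarith) mu2
  set i := n₁ + n₂ + n₃ + 1 with hi
  have hgood := hLev.good i
  have hεi : ε i ≤ 1 / 2 := by
    have hk : ∀ k, ε k ≤ 1 / 2 := by
      intro k
      induction k with
      | zero => rw [hLev.ε0]
      | succ k ih =>
        rw [hLev.εsucc]
        have g := hLev.good k
        have h2 := g.ε'w
        have h3 := g.wε
        have h4 := g.wpos
        linarith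
    exact hk i
  set Y := X i with hY
  set P := Y.P with hPdef
  have hiP : i ≤ P := by
    have := hgood.Pθ
    nlinarith
  have hP0 : (0 : ℝ) < P := by exact_mod_cast (by omega : 0 < P)
  obtain ⟨B₁, hB₁⟩ := hn₁ P (by omega)
  obtain ⟨B₃, hB₃⟩ := hn₃ i (ε i) (θ i) Y (by omega) hεi hgood
  set B := B₁ + B₃ with hB
  obtain ⟨U, hUo, hUne, hUb, hU⟩ := hB₃ B (by omega)
  -- choice of the base point
  have hae : ∀ᵐ x₀ : ℂ, ∀ x : Lamp (Fin m ⊕ Fin 2) (P ^ 3), ∀ s v : ℤ × ℤ,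
      (2 * ((cyl (body a₁ X 1)).indicator (fun _ => (1 : ℝ))
          (loc a₁ (P ^ 7) ρ a x s v + lq ρ x.1 * x₀)
        - (cyl (body a₁ X (-1))).indicator (fun _ => (1 : ℝ))
          (loc a₁ (P ^ 7) ρ a x s v + lq ρ x.1 * x₀)) =
        ∑ j, ((D j).indicator (fun _ => (1 : ℝ)) (loc a₁ (P ^ 7) ρ a x s v + lq ρ x.1 * x₀)
          - (D j).indicator (fun _ => (1 : ℝ)) ((ρ₀ j)⁻¹ *
            (loc a₁ (P ^ 7) ρ a x s v + lq ρ x.1 * x₀ - a₀ j)))) ∧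
      (loc a₁ (P ^ 7) ρ a x s v + lq ρ x.1 * x₀).re ≠ 2 + a₁ ∧
      (loc a₁ (P ^ 7) ρ a x s v + lq ρ x.1 * x₀).re ≠ 3 - a₁ := by
    rw [ae_all_iff]
    intro x
    rw [ae_all_iff]
    intro s
    rw [ae_all_iff]
    intro v
    have hx := norm_lq ρ hρ x.1
    have e1 := ae_move hflux (loc a₁ (P ^ 7) ρ a x s v) (lq ρ x.1) hx
    have e2 := ae_move (ae_re_ne (2 + a₁)) (loc a₁ (P ^ 7) ρ a x s v) (lq ρ x.1) hx
    have e3 := ae_move (ae_re_ne (3 - a₁)) (loc a₁ (P ^ 7) ρ a x s v) (lq ρ x.1) hx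
    filter_upwards [e1, e2, e3] with x₀ g1 g2 g3
    exact ⟨g1, g2, g3⟩
  obtain ⟨x₀, hx₀U, hx₀⟩ : ∃ x₀ ∈ U, ∀ x : Lamp (Fin m ⊕ Fin 2) (P ^ 3), ∀ s v : ℤ × ℤ,
      (2 * ((cyl (body a₁ X 1)).indicator (fun _ => (1 : ℝ))
          (loc a₁ (P ^ 7) ρ a x s v + lq ρ x.1 * x₀)
        - (cyl (body a₁ X (-1))).indicator (fun _ => (1 : ℝ))
          (loc a₁ (P ^ 7) ρ a x s v + lq ρ x.1 * x₀)) =
        ∑ j, ((D j).indicator (fun _ => (1 : ℝ)) (loc a₁ (P ^ 7) ρ a x s v + lq ρ x.1 * x₀)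
          - (D j).indicator (fun _ => (1 : ℝ)) ((ρ₀ j)⁻¹ *
            (loc a₁ (P ^ 7) ρ a x s v + lq ρ x.1 * x₀ - a₀ j)))) ∧
      (loc a₁ (P ^ 7) ρ a x s v + lq ρ x.1 * x₀).re ≠ 2 + a₁ ∧
      (loc a₁ (P ^ 7) ρ a x s v + lq ρ x.1 * x₀).re ≠ 3 - a₁ := by
    by_contra hcon
    push Not at hcon
    have hpos : 0 < volume U := hUo.measure_pos volume hUne
    have hzero : volume U = 0 := by
      refine measure_mono_null ?_ (ae_iff.mp hae)
      intro x hx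
      obtain ⟨x', s, v, h⟩ := hcon x hx
      rw [mem_setOf_eq]
      intro hall
      obtain ⟨g1, g2, g3⟩ := hall x' s v
      exact g3 (h g1 g2)
    exact hpos.ne' hzero
  obtain ⟨hTot, havoid⟩ := hU x₀ hx₀U
  have hx₀n : ‖x₀‖ < Y.w / 4 := by
    have := hUb hx₀U
    rwa [mem_ball_zero_iff] at this
  have hw16 : Y.w < 1 / 16 := by
    have := hgood.wε
    linarith
  have hx₀1 : ‖x₀‖ ≤ 1 := by linarith
  have hadv := hB₁ B (by omega) x₀ hx₀1
  -- the lower levels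
  set vv : ℕ → ℝ := fun j => 2 * (mu2 / 2 ^ j) with hvv
  have hlow := hn₂ P (by omega) B x₀ i hiP (fun j => (X j).G) vv (by
    intro j hj u
    have hgj := hLev.good j
    have hthr : thrP a₁ j (X j).G ≤ P ^ 7 := by
      have h2 := hLev.hθ i j hj
      have h3 := hgood.Pθ
      have h4 : θ i ≤ P := by nlinarith
      exact (h2.trans h4).trans (Nat.le_self_pow (by norm_num) P)
    refine (thrP_spec a₁ j (X j).G hgj.Gper hgj.Gfr (P ^ 7) hthr u).trans ?_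
    have h5 : (volume ((X j).G ∩ Icc 0 1)).toReal ≤ mu2 / 2 ^ j := by
      have := hgj.Gvol
      have h6 : 0 ≤ mu2 / 2 ^ j := by have := mu2_pos; positivity
      calc (volume ((X j).G ∩ Icc 0 1)).toReal ≤ (ENNReal.ofReal (mu2 / 2 ^ j)).toReal :=
            ENNReal.toReal_mono ENNReal.ofReal_ne_top this
        _ = mu2 / 2 ^ j := ENNReal.toReal_ofReal h6
    simp only [hvv]
    linarith)
  have hvvsum : ∑ j ∈ Finset.range i, vv j ≤ 4 * mu2 := by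
    have : ∑ j ∈ Finset.range i, vv j = 2 * mu2 * ∑ j ∈ Finset.range i, (1 : ℝ) / 2 ^ j := by
      rw [Finset.mul_sum]
      refine Finset.sum_congr rfl fun j _ => ?_
      simp only [hvv]
      ring
    rw [this]
    have h2 := geom_sum_le i
    have h3 := mu2_pos
    nlinarith
  -- the identity
  have key1 : Tot (P ^ 3) a₁ (P ^ 7) B ρ a d₁ P x₀ (fun z => ∑ j,
        ((D j).indicator (fun _ => (1 : ℝ)) z
          - (D j).indicator (fun _ => (1 : ℝ)) ((ρ₀ j)⁻¹ * (z - a₀ j)))) =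
      Tot (P ^ 3) a₁ (P ^ 7) B ρ a d₁ P x₀ (fun z => 2 *
        ∑ j ∈ Finset.range (i + 1), Fl a₁ (X j).G z) := by
    apply Tot_congr hP0
    intro x s v hs hv hle
    obtain ⟨g1, _, _⟩ := hx₀ x s v
    rw [← g1]
    congr 1
    by_cases h5 : ‖loc a₁ (P ^ 7) ρ a x s v‖ ≤ 5
    · apply body_diff hLev i
      exact havoid (x, s, v) (mem_relI.mpr ⟨⟨hs, hv⟩, hle, h5⟩)
    · push Not at h5
      have hy : 4 < ‖loc a₁ (P ^ 7) ρ a x s v + lq ρ x.1 * x₀‖ := by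
        have h6 : ‖lq ρ x.1 * x₀‖ ≤ 1 := by
          rw [norm_mul, norm_lq ρ hρ, one_mul]
          exact hx₀1
        have h7 := norm_sub_le (loc a₁ (P ^ 7) ρ a x s v + lq ρ x.1 * x₀) (lq ρ x.1 * x₀)
        rw [add_sub_cancel_right] at h7
        linarith
      rw [indicator_of_notMem (fun h => absurd (cyl_body_norm h) (not_le.mpr hy)),
        indicator_of_notMem (fun h => absurd (cyl_body_norm h) (not_le.mpr hy)), sub_zero]
      symm
      apply Finset.sum_eq_zero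
      intro j _
      unfold Fl
      rw [indicator_of_notMem (fun h => absurd (norm_le_of_sq2 h) (not_le.mpr hy))]
  have key2 : Tot (P ^ 3) a₁ (P ^ 7) B ρ a d₁ P x₀ (fun z => 2 *
        ∑ j ∈ Finset.range (i + 1), Fl a₁ (X j).G z) =
      2 * (Tot (P ^ 3) a₁ (P ^ 7) B ρ a d₁ P x₀ (fun z => ∑ j ∈ Finset.range i,
        Fl a₁ (X j).G z) + Tot (P ^ 3) a₁ (P ^ 7) B ρ a d₁ P x₀ (Fl a₁ Y.G)) := by
    rw [Tot_mul, ← Tot_add]
    congr 2
    funext z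
    rw [Finset.sum_range_succ]
  have key3 : Tot (P ^ 3) a₁ (P ^ 7) B ρ a d₁ P x₀ (fun z => ∑ j ∈ Finset.range i,
        Fl a₁ (X j).G z) =
      Tot (P ^ 3) a₁ (P ^ 7) B ρ a d₁ P x₀ (fun z => ∑ j ∈ Finset.range i,
        ∑ u : Fin 2, ((Qp a₁ (X j).G u).indicator (fun _ => (1 : ℝ)) z
          - (Qp a₁ (X j).G u).indicator (fun _ => (1 : ℝ)) (z - ((u : ℕ) - a₁ : ℂ)))) := by
    apply Tot_congr hP0
    intro x s v _ _ _
    obtain ⟨_, g2, g3⟩ := hx₀ x s v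
    refine Finset.sum_congr rfl fun j _ => ?_
    exact Fl_flux a₁ h0 h1 (X j).G (hLev.good j).Gper _ g2 g3
  rw [← key3] at hlow
  rw [key1, key2] at hadv
  set Λ : ℝ := ((Fintype.card (Lamp (Fin m ⊕ Fin 2) (P ^ 3)) : ℕ) : ℝ) with hΛ
  have hΛ0 : 0 < Λ := by
    rw [hΛ]
    have : 0 < Fintype.card (Lamp (Fin m ⊕ Fin 2) (P ^ 3)) := by
      rw [card_Lamp]
      have : 0 < P := by omega
      positivity
    exact_mod_cast this
  set T₁ := Tot (P ^ 3) a₁ (P ^ 7) B ρ a d₁ P x₀ (fun z => ∑ j ∈ Finset.range i,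
        Fl a₁ (X j).G z) with hT₁
  set T₂ := Tot (P ^ 3) a₁ (P ^ 7) B ρ a d₁ P x₀ (Fl a₁ Y.G) with hT₂
  set Z : ℝ := Λ * P * ((P ^ 7 : ℕ) : ℝ) ^ 4 with hZ
  have hPnat : 0 < P := by omega
  have hZ0 : 0 < Z := by
    rw [hZ]
    have : (0 : ℝ) < ((P ^ 7 : ℕ) : ℝ) := by
      have : 0 < P ^ 7 := by positivity
      exact_mod_cast this
    positivity
  have g1 : |2 * (T₁ + T₂)| ≤ (1 / 10 ^ 7) * Z := by
    refine hadv.trans (le_of_eq ?_)
    rw [hZ]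
    ring
  have g2 : |T₁| ≤ (272 * (4 * mu2) + 1 / 10 ^ 7) * Z := by
    refine hlow.trans ?_
    have : (272 * (∑ j ∈ Finset.range i, vv j) + 1 / 10 ^ 7) * Λ * P * ((P ^ 7 : ℕ) : ℝ) ^ 4 =
      (272 * (∑ j ∈ Finset.range i, vv j) + 1 / 10 ^ 7) * Z := by rw [hZ]; ring
    rw [this]
    gcongr
  have g3 : T₂ ≤ -(Z / 458752) := hTot
  have hmu : mu2 = 1 / 10 ^ 10 := rfl
  rw [hmu] at g2
  rw [abs_le] at g1 g2
  have g4 : (272 * (4 * (1 / 10 ^ 10)) + 1 / 10 ^ 7 : ℝ) * Z ≤ (3 / 10 ^ 7) * Z := by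
    gcongr
    norm_num
  nlinarith [g1.1, g1.2, g2.1, g2.2]

end GB
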