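import Pool.Agent.Helper63.GB2.Basic

/-!
# MP_02f2ca_gt, dimension two : weighted configuration sums
-/

open Set MeasureTheory Filter Topology

namespace GB

/-- the location of the mesh point `(x, s, v)` of the configuration -/
noncomputable def loc {ι : Type} [Fintype ι] [DecidableEq ι] {M : ℕ} (α : ℝ) (L : ℕ)
    (ρ a : ι → ℂ) (x : Lamp ι M) (s v : ℤ × ℤ) : ℂ :=
  mb α L (lq ρ x.1) (lh ρ a x.2) s v

/-- weighted configuration sum of a function -/
noncomputable def Tot {ι : Type} [Fintype ι] [DecidableEq ι] (M : ℕ) (α : ℝ) (L B : ℕ)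
    (ρ a : ι → ℂ) (d : Derivation ℚ ℝ ℝ) (P : ℝ) (x₀ : ℂ) (F : ℂ → ℝ) : ℝ :=
  ∑ x : Lamp ι M, ∑ s ∈ boxZ B, ∑ v ∈ boxZ B,
    bump P (cder d (loc α L ρ a x s v)) * F (loc α L ρ a x s v + lq ρ x.1 * x₀)

section
variable {ι : Type} [Fintype ι] [DecidableEq ι] (M : ℕ) (α : ℝ) (L B : ℕ)
    (ρ a : ι → ℂ) (d : Derivation ℚ ℝ ℝ) (P : ℝ) (x₀ : ℂ)

lemma Tot_mul (c : ℝ) (F : ℂ → ℝ) :
    Tot M α L B ρ a d P x₀ (fun z => c * F z) = c * Tot M α L B ρ a d P x₀ F := by
  unfold Tot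
  simp only [Finset.mul_sum]
  refine Finset.sum_congr rfl fun x _ => Finset.sum_congr rfl fun s _ =>
    Finset.sum_congr rfl fun v _ => ?_
  ring

lemma Tot_add (F F' : ℂ → ℝ) :
    Tot M α L B ρ a d P x₀ (fun z => F z + F' z) =
      Tot M α L B ρ a d P x₀ F + Tot M α L B ρ a d P x₀ F' := by
  unfold Tot
  simp only [mul_add, Finset.sum_add_distrib]

lemma Tot_sub (F F' : ℂ → ℝ) :
    Tot M α L B ρ a d P x₀ (fun z => F z - F' z) =
      Tot M α L B ρ a d P x₀ F - Tot M α L B ρ a d P x₀ F' := by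
  unfold Tot
  simp only [mul_sub, Finset.sum_sub_distrib]

lemma Tot_zero : Tot M α L B ρ a d P x₀ (fun _ => 0) = 0 := by
  unfold Tot
  simp

lemma Tot_sum {β : Type*} (s : Finset β) (F : β → ℂ → ℝ) :
    Tot M α L B ρ a d P x₀ (fun z => ∑ b ∈ s, F b z) = ∑ b ∈ s, Tot M α L B ρ a d P x₀ (F b) := by
  classical
  induction s using Finset.induction_on with
  | empty => simp only [Finset.sum_empty]; exact Tot_zero M α L B ρ a d P x₀
  | insert b s hb ih =>
    rw [Finset.sum_insert hb, ← ih, ← Tot_add]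
    congr 1
    funext z
    rw [Finset.sum_insert hb]

/-- one move -/
lemma Tot_move (hM : 2 ≤ M) (hρ : ∀ i, ‖ρ i‖ = 1) (j : ι) (E : Set ℂ) (Bd V : ℝ)
    (hBd0 : 0 ≤ Bd)
    (hfine : ∀ x : Lamp ι M, |∑ s ∈ boxZ B, ∑ v ∈ boxZ B,
      (bump P (cder d (loc α L ρ a x s v)) - bump P (cder d (ρ j * loc α L ρ a x s v + a j))) *
        E.indicator (fun _ => (1 : ℝ)) (loc α L ρ a x s v + lq ρ x.1 * x₀)| ≤ Bd)
    (hV : ∀ x : Lamp ι M, ∑ s ∈ boxZ B, ∑ v ∈ boxZ B, bump P (cder d (loc α L ρ a x s v)) *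
        E.indicator (fun _ => (1 : ℝ)) (loc α L ρ a x s v + lq ρ x.1 * x₀) ≤ V)
    (hV' : ∀ x : Lamp ι M, ∑ s ∈ boxZ B, ∑ v ∈ boxZ B, bump P (cder d (loc α L ρ a x s v)) *
        E.indicator (fun _ => (1 : ℝ))
          ((ρ j)⁻¹ * (loc α L ρ a x s v + lq ρ x.1 * x₀ - a j)) ≤ V) :
    |Tot M α L B ρ a d P x₀ (fun z => E.indicator (fun _ => (1 : ℝ)) z -
      E.indicator (fun _ => (1 : ℝ)) ((ρ j)⁻¹ * (z - a j)))| ≤
      Fintype.card (Lamp ι M) * (Bd + 2 * V / M) := by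
  obtain ⟨μ, bad, hbad, hμ⟩ := lamp_move (ι := ι) M hM j
  set A : Lamp ι M → ℝ := fun x => ∑ s ∈ boxZ B, ∑ v ∈ boxZ B,
    bump P (cder d (loc α L ρ a x s v)) *
        E.indicator (fun _ => (1 : ℝ)) (loc α L ρ a x s v + lq ρ x.1 * x₀) with hA
  set A' : Lamp ι M → ℝ := fun x => ∑ s ∈ boxZ B, ∑ v ∈ boxZ B,
    bump P (cder d (loc α L ρ a x s v)) *
        E.indicator (fun _ => (1 : ℝ))
          ((ρ j)⁻¹ * (loc α L ρ a x s v + lq ρ x.1 * x₀ - a j)) with hA'
  have hA0 : ∀ x, 0 ≤ A x := fun x => Finset.sum_nonneg fun s _ => Finset.sum_nonneg fun v _ =>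
    mul_nonneg (bump_nonneg _ _) (indicator_nonneg (fun _ _ => zero_le_one) _)
  have hA'0 : ∀ x, 0 ≤ A' x := fun x => Finset.sum_nonneg fun s _ => Finset.sum_nonneg fun v _ =>
    mul_nonneg (bump_nonneg _ _) (indicator_nonneg (fun _ _ => zero_le_one) _)
  have hV0 : ∀ x, A x ≤ V := hV
  have hV'0 : ∀ x, A' x ≤ V := hV'
  have hρj : ρ j ≠ 0 := by
    intro h
    have := hρ j
    rw [h, norm_zero] at this
    norm_num at this
  have hTot : Tot M α L B ρ a d P x₀ (fun z => E.indicator (fun _ => (1 : ℝ)) z -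
      E.indicator (fun _ => (1 : ℝ)) ((ρ j)⁻¹ * (z - a j))) = ∑ x, (A x - A' (μ x)) := by
    rw [Tot_sub, Finset.sum_sub_distrib, Equiv.sum_comp μ A']
    rfl
  rw [hTot]
  have hgood : ∀ x ∉ bad, |A x - A' (μ x)| ≤ Bd := by
    intro x hx
    obtain ⟨h1, h2⟩ := hμ x hx ρ a hρ
    have hqne : lq ρ (μ x).1 ≠ 0 := by
      have := norm_lq ρ hρ (μ x).1
      intro h
      rw [h, norm_zero] at this
      norm_num at this
    have hloc : ∀ s v, loc α L ρ a (μ x) s v = ρ j * loc α L ρ a x s v + a j := by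
      intro s v
      unfold loc mb
      rw [h2]
      have : lq ρ (μ x).1 * (lh ρ a x.2 + (lq ρ (μ x).1)⁻¹ * a j + (gi s + fr2 α v) / (L : ℂ)) =
          lq ρ (μ x).1 * (lh ρ a x.2 + (gi s + fr2 α v) / (L : ℂ)) + a j := by
        field_simp
        ring
      rw [this, h1]
      ring
    have : A x - A' (μ x) = ∑ s ∈ boxZ B, ∑ v ∈ boxZ B,
      (bump P (cder d (loc α L ρ a x s v)) - bump P (cder d (ρ j * loc α L ρ a x s v + a j))) *
        E.indicator (fun _ => (1 : ℝ)) (loc α L ρ a x s v + lq ρ x.1 * x₀) := by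
      simp only [hA, hA', ← Finset.sum_sub_distrib]
      refine Finset.sum_congr rfl fun s _ => Finset.sum_congr rfl fun v _ => ?_
      rw [hloc, h1]
      have : (ρ j)⁻¹ * (ρ j * loc α L ρ a x s v + a j + ρ j * lq ρ x.1 * x₀ - a j) =
          loc α L ρ a x s v + lq ρ x.1 * x₀ := by
        field_simp
        ring
      rw [this]
      ring
    rw [this]
    exact hfine x
  have hall : ∀ x, |A x - A' (μ x)| ≤ Bd + (if x ∈ bad then V else 0) := by
    intro x
    split_ifs with hx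
    · have h1 := hA0 x
      have h2 := hA'0 (μ x)
      have h3 := hV0 x
      have h4 := hV'0 (μ x)
      rw [abs_le]
      constructor <;> linarith
    · rw [add_zero]
      exact hgood x hx
  have hM0 : (0 : ℝ) < M := by exact_mod_cast (by omega : 0 < M)
  calc |∑ x, (A x - A' (μ x))| ≤ ∑ x, |A x - A' (μ x)| := Finset.abs_sum_le_sum_abs _ _
    _ ≤ ∑ x, (Bd + (if x ∈ bad then V else 0)) := Finset.sum_le_sum fun x _ => hall x
    _ = Fintype.card (Lamp ι M) * Bd + bad.card * V := by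
        rw [Finset.sum_add_distrib, Finset.sum_const, Finset.card_univ, nsmul_eq_mul,
          Finset.sum_ite_mem, Finset.univ_inter, Finset.sum_const, nsmul_eq_mul]
    _ ≤ Fintype.card (Lamp ι M) * Bd + (2 * Fintype.card (Lamp ι M) / M) * V := by
        have hV00 : 0 ≤ V := by
          by_cases hb : bad.Nonempty
          · obtain ⟨x, _⟩ := hb
            exact (hA0 x).trans (hV0 x)
          · have : NeZero M := ⟨by omega⟩
            have : Nonempty (Lamp ι M) := ⟨(fun _ => 0, fun _ => 0)⟩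
            obtain ⟨x⟩ := (inferInstance : Nonempty (Lamp ι M))
            exact (hA0 x).trans (hV0 x)
        gcongr
        rw [le_div_iff₀ hM0]
        have : ((M * bad.card : ℕ) : ℝ) ≤ ((2 * Fintype.card (Lamp ι M) : ℕ) : ℝ) := by
          exact_mod_cast hbad
        push_cast at this
        linarith
    _ = _ := by ring

end

end GB
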